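import Pool.Agent.J4H50.YJ.Cy

set_option autoImplicit false

/-! # Project YJ: the charts for the rule `cone` of `SIZ` -/

namespace Pool.Agent.J4H50.YJ

open MvPolynomial
open Pool.Agent.J4H50.YP (deh)

/-- (CH) The charts of the blowing up near a singular point `P` of the cone, in the form of the rule
`cone` of `YM.SIZ`, with fixed names of the variables: `V` is `Option {j // j ≠ i₀}`. From
`Pool.Agent.J4H94.YP.chart` (where the `Ψ o` are `X none * (v * xi P i ⋯)`, so that the constant
coefficients of the `ξ` are `c P_l` with `c = v(0)`), by renaming; the rows and the columns of the matrix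
are permuted (the sign goes into `J`). -/
def S_CH : Prop := ∀ {V : Type} [Fintype V] [DecidableEq V] (F : MvPolynomial V ℂ) (d : ℕ), 2 ≤ d →
  (∀ j < d, homogeneousComponent j F = 0) → ∀ (i₀ : V) (P : V → ℂ) (i : V), P i ≠ 0 →
  (∀ l, eval P (pderiv l (homogeneousComponent d F)) = 0) →
  eval P (homogeneousComponent (d + 1) F) ≠ 0 → ∀ ε : {j : V // j ≠ i} ≃ {j : V // j ≠ i₀},
  ∃ (c : ℂ) (ξ : Option {j : V // j ≠ i₀} → MvPowerSeries (Option {j : V // j ≠ i₀}) ℂ)
    (J U : MvPowerSeries (Option {j : V // j ≠ i₀}) ℂ), c ≠ 0 ∧ IsUnit J ∧ IsUnit U ∧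
    (∀ l, MvPowerSeries.constantCoeff (ξ l) = c * P (Equiv.optionSubtypeNe i₀ l)) ∧
    (Matrix.of fun l m => MvPowerSeries.pderiv ℂ m (MvPowerSeries.X none * ξ l)).det =
      MvPowerSeries.X none ^ Fintype.card {j : V // j ≠ i₀} * J ∧
    MvPowerSeries.subst (fun l => MvPowerSeries.X none * ξ l)
      ((rename (Equiv.optionSubtypeNe i₀).symm F : MvPolynomial (Option {j : V // j ≠ i₀}) ℂ) :
        MvPowerSeries (Option {j : V // j ≠ i₀}) ℂ) =
      U * (MvPowerSeries.X none ^ d *
        (MvPowerSeries.rename some ((rename ε (deh P i (homogeneousComponent d F)) :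
          MvPolynomial {j : V // j ≠ i₀} ℂ) : MvPowerSeries {j : V // j ≠ i₀} ℂ) +
          MvPowerSeries.X none))

end Pool.Agent.J4H50.YJ
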