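import Pool.Agent.J4H50.YJ.Cy
import Pool.Agent.J4H50.YJ.Stm2
import Pool.Agent.J4H50.YM.Main
import Pool.Agent.J4H50.YP.AsmC
import Pool.Agent.J4H50.IG.Ts
import Pool.Agent.J4H94.YP.Deh
import Pool.Agent.J4H97.YP.Red

set_option autoImplicit false
set_option linter.unusedSectionVars false
set_option linter.unusedVariables false

/-! # Project YJ: the generating functions of the volumes are the zeta functions of the class `SIZ` -/

namespace Pool.Agent.J4H50.YJ

open MvPolynomial
open Pool.Agent.W428.MOT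
open Pool.Agent.TH192.MT (ar)
open Pool.Agent.J4H50.YP (deh SIG hc_empty rest_ord)
open Pool.Agent.J4H50.YO (RedZeta NV NonExact Sing)
open Pool.Agent.W574.MO (mf)
open Pool.Agent.J4H50.YM (SIZ coneZ)

/-! ### Generalities -/

theorem coeff0_aeval {K : Type} [Field K] {σ : Type} (x : Ac K σ) (F : MvPolynomial σ K) :
    PowerSeries.coeff 0 (aeval x F) = aeval (fun i => PowerSeries.coeff 0 (x i)) F := by
  induction F using MvPolynomial.induction_on with
  | C a => rw [aeval_C, aeval_C, PowerSeries.algebraMap_apply, PowerSeries.coeff_zero_C]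
  | add p q hp hq => rw [map_add, map_add, map_add, hp, hq]
  | mul_X p i hp =>
    have h1 : PowerSeries.coeff 0 (aeval x p * x i) =
        PowerSeries.coeff 0 (aeval x p) * PowerSeries.coeff 0 (x i) := by
      simp only [PowerSeries.coeff_zero_eq_constantCoeff_apply, map_mul]
    rw [map_mul (aeval x), map_mul (aeval fun i => PowerSeries.coeff 0 (x i)), aeval_X, aeval_X,
      h1, hp]

theorem A1_zero {K : Type} [Field K] {σ : Type} (F : MvPolynomial σ K)
    (h0 : constantCoeff F = 0) : A1 F 0 = ∅ := by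
  rw [Set.eq_empty_iff_forall_notMem]
  rintro x ⟨hx, -, h2⟩
  apply h2
  rw [coeff0_aeval]
  have h3 : (fun i => PowerSeries.coeff 0 (x i)) = 0 := funext hx
  rw [h3, aeval_zero, h0, map_zero]

/-! ### Plane curves -/

theorem zs_curve {R : Type} [CommRing R] (M : Meas ℂ R) (u : Rˣ) (hL : M.L = (u : R))
    (hV : S_V1) (h5 : S_P5) (F : MvPolynomial (Fin 2) ℂ) (h0 : constantCoeff F = 0)
    (Z : PowerSeries R) (hZ : RedZeta (mf u) (PowerSeries.C (u : R)) F 0 1 0 1 Z) :
    zs M ((u⁻¹ : Rˣ) : R) F = Z := by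
  have hv : M.L * ((u⁻¹ : Rˣ) : R) = 1 := by rw [hL]; exact u.mul_inv
  have key := h5 (K := ℂ) M u hL F 0 1 0 1 Z hZ le_rfl le_rfl (fun _ => rfl) (fun _ => rfl)
  have hA : ∀ e, A2 F none none e = A1 F e := by
    intro e
    ext x
    simp only [A2, A1, oc, Set.mem_ofPred_eq, Fin.forall_fin_two, and_assoc]
  have key2 : ∀ e, PowerSeries.coeff e Z = (u : R) ^ 2 * vol M ((u⁻¹ : Rˣ) : R) (A1 F e) := by
    intro e
    have h := key e
    simp only [Ix, Finset.sum_singleton, ix, zero_mul, add_zero, Nat.zero_le, if_true,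
      Nat.sub_self, pow_zero, one_mul, Nat.sub_zero, hA] at h
    rw [← h, ← mul_assoc, ← mul_pow, u.mul_inv, one_pow, one_mul]
  ext e
  rw [zs, PowerSeries.coeff_mk, key2]
  split_ifs with he
  · rw [he, A1_zero F h0, (hV M _ hv).2.2.2.2, mul_zero]
  · rw [Fintype.card_fin, hL]

/-! ### Cones -/

theorem card_ne {V : Type} [Fintype V] [DecidableEq V] (i : V) :
    Fintype.card {j : V // j ≠ i} + 1 = Fintype.card V := by
  rw [← Fintype.card_option]
  exact Fintype.card_congr (Equiv.optionSubtypeNe i)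

theorem deh_cc {V : Type} [Fintype V] [DecidableEq V] (H : MvPolynomial V ℂ) (d : ℕ) (hd : 1 ≤ d)
    (hH : H.IsHomogeneous d) (P : V → ℂ) (i : V) (hs : ∀ l, eval P (pderiv l H) = 0) :
    constantCoeff (deh P i H) = 0 := by
  have h := Pool.Agent.J4H94.YP.sing_ad hH hd P i hs 0 (by rw [map_zero]; exact Nat.zero_le 1)
  exact h

theorem zs_cone {R : Type} [CommRing R] (M : Meas ℂ R) (u : Rˣ) (hL : M.L = (u : R))
    (hV : S_V1) (c1 : S_C1) (c2 : S_C2) (c3 : S_C3) (c4 : S_C4) (c5 : S_C5) {V : Type}
    [Fintype V] [DecidableEq V] [Nonempty V] (F : MvPolynomial V ℂ) (d : ℕ) (hd : 2 ≤ d)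
    (hF : ∀ j < d, homogeneousComponent j F = 0) {ι : Type} [Fintype ι] (P : ι → V → ℂ)
    (hP : SP (homogeneousComponent d F) P) (i : ι → V) (hi : ∀ r, P r (i r) ≠ 0)
    (h1 : ∀ r, eval (P r) (homogeneousComponent (d + 1) F) ≠ 0) :
    ∃ A : R, zs M ((u⁻¹ : Rˣ) : R) F = coneZ u (Fintype.card V) d A
      (fun r => zs M ((u⁻¹ : Rˣ) : R) (deh (P r) (i r) (homogeneousComponent d F))) := by
  have hv : M.L * ((u⁻¹ : Rˣ) : R) = 1 := by rw [hL]; exact u.mul_inv
  have hhom := homogeneousComponent_isHomogeneous d F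
  obtain ⟨A, hU, hY⟩ := c5 M (homogeneousComponent d F) d hd hhom P hP
  refine ⟨A, ?_⟩
  rw [hL] at hU hY
  have h := c4 u (Fintype.card V) d Fintype.card_pos (by omega) A
    (M.χ V (UU (homogeneousComponent d F))) (M.χ V (YY (homogeneousComponent d F))) hU hY
    (fun r l => vol M ((u⁻¹ : Rˣ) : R) (A1 (deh (P r) (i r) (homogeneousComponent d F)) l))
    (fun r => by
      rw [A1_zero _ (deh_cc _ d (by omega) hhom (P r) (i r) (hP.sing r)), (hV M _ hv).2.2.2.2])
    (fun l => vol M ((u⁻¹ : Rˣ) : R) (A1 F l))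
    (fun m l => vol M ((u⁻¹ : Rˣ) : R)
      {ξ : Ac ℂ V | (∃ r, PowerSeries.coeff 0 (ξ r) ≠ 0) ∧ Od (Qm F d m ξ) l})
    (c1 M _ hv F d (by omega) hF) (fun m hm => (c2 M _ hv F d hd hF P hP m hm).1)
    (fun m l hm hl => by
      rw [(c2 M _ hv F d hd hF P hP m hm).2 l hl]
      congr 1
      refine Finset.sum_congr rfl fun r _ => ?_
      exact c3 M _ hv F d hd hF (P r) (i r) (hi r) (hP.sing r) (h1 r) m l hm)
  have e1 : zs M ((u⁻¹ : Rˣ) : R) F = PowerSeries.mk fun l =>
      if l = 0 then 0 else (u : R) ^ Fintype.card V * vol M ((u⁻¹ : Rˣ) : R) (A1 F l) := by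
    rw [zs, hL]
  have e2 : ∀ r, zs M ((u⁻¹ : Rˣ) : R) (deh (P r) (i r) (homogeneousComponent d F)) =
      PowerSeries.mk fun l => if l = 0 then 0 else (u : R) ^ (Fintype.card V - 1) *
        vol M ((u⁻¹ : Rˣ) : R) (A1 (deh (P r) (i r) (homogeneousComponent d F)) l) := by
    intro r
    have e3 : Fintype.card {j : V // j ≠ i r} = Fintype.card V - 1 := by
      have := card_ne (i r)
      omega
    rw [zs, hL, e3]
  rw [e1, h]
  congr 1
  funext r
  exact (e2 r).symm

/-! ### Singular points -/

theorem gp_eval {V : Type} (x : V → ℂ) (q : MvPolynomial V ℂ) :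
    aeval (gp x) q = algebraMap ℂ (AlgebraicClosure ℂ) (eval x q) := by
  have h := (aeval_algebraMap_apply (B := AlgebraicClosure ℂ) x q)
  exact h

theorem SP.all' {V ι : Type} {H : MvPolynomial V ℂ} {P : ι → V → ℂ} (hP : SP H P) (x : V → ℂ)
    (hx : x ≠ 0) (hs : ∀ l, eval x (pderiv l H) = 0) : ∃ r, ∃ c : ℂ, x = c • P r := by
  have hinj : Function.Injective (algebraMap ℂ (AlgebraicClosure ℂ)) :=
    FaithfulSMul.algebraMap_injective _ _
  have h1 : gp x ≠ 0 := by
    intro h
    apply hx
    funext j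
    have h2 := congrFun h j
    exact hinj (by rw [Pi.zero_apply, map_zero]; exact h2)
  obtain ⟨r, c, hc⟩ := hP.all (gp x) h1 fun l => by rw [gp_eval, hs l, map_zero]
  obtain ⟨j, hj⟩ : ∃ j, P r j ≠ 0 := by
    by_contra hcon
    push Not at hcon
    exact hP.ne r (funext hcon)
  refine ⟨r, x j / P r j, ?_⟩
  funext l
  apply hinj
  have h3 : algebraMap ℂ (AlgebraicClosure ℂ) (x j) =
      c * algebraMap ℂ (AlgebraicClosure ℂ) (P r j) := congrFun hc j
  have h4 : algebraMap ℂ (AlgebraicClosure ℂ) (x l) =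
      c * algebraMap ℂ (AlgebraicClosure ℂ) (P r l) := congrFun hc l
  have h5 : algebraMap ℂ (AlgebraicClosure ℂ) (P r j) ≠ 0 := fun h => hj (hinj (by
    rw [h, map_zero]))
  rw [h4, Pi.smul_apply, smul_eq_mul, map_mul, map_div₀, h3, mul_div_assoc, div_self h5, mul_one]

theorem SP.scale {V ι : Type} {H : MvPolynomial V ℂ} {P : ι → V → ℂ} (hP : SP H P) (d : ℕ)
    (hH : H.IsHomogeneous d) (a : ι → ℂ) (ha : ∀ r, a r ≠ 0) : SP H (fun r => a r • P r) := by
  refine ⟨fun r => ?_, fun r l => ?_, fun r s hrs c hc => ?_, fun x hx hs => ?_⟩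
  · exact smul_ne_zero (ha r) (hP.ne r)
  · have h1 : (pderiv l H).IsHomogeneous (d - 1) := hH.pderiv
    have h2 : eval (a r • P r) (pderiv l H) = a r ^ (d - 1) * eval (P r) (pderiv l H) :=
      Pool.Agent.J4H94.YP.aeval_hom (A := ℂ) (pderiv l H) h1 (a r) (P r)
    rw [h2, hP.sing r l, mul_zero]
  · apply hP.inj r s hrs ((a r)⁻¹ * c * a s)
    have h2 : P r = (a r)⁻¹ • (a r • P r) := by rw [smul_smul, inv_mul_cancel₀ (ha r), one_smul]
    rw [h2, hc, smul_smul, smul_smul]
  · obtain ⟨r, c, hc⟩ := hP.all x hx hs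
    refine ⟨r, c * algebraMap ℂ (AlgebraicClosure ℂ) (a r)⁻¹, ?_⟩
    rw [hc]
    funext j
    change c * algebraMap ℂ (AlgebraicClosure ℂ) (P r j) =
      c * algebraMap ℂ (AlgebraicClosure ℂ) (a r)⁻¹ *
        algebraMap ℂ (AlgebraicClosure ℂ) (a r * P r j)
    rw [mul_assoc, ← map_mul, ← mul_assoc, inv_mul_cancel₀ (ha r), one_mul]

theorem nonExact_ren {V W : Type} [Fintype V] [Fintype W] (e : V ≃ W) (H : MvPolynomial V ℂ)
    (s : ℂ) (h : NonExact H s) : NonExact (rename e H) s := by
  intro m η hη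
  apply h m (fun i => rename e.symm (η (e i)))
  have hr : ∀ q : MvPolynomial V ℂ, rename e.symm (rename e q) = q := fun q => by
    rw [rename_rename, e.symm_comp_self, rename_id_apply]
  have hpd : ∀ (i : V) (q : MvPolynomial W ℂ), pderiv i (rename e.symm q) =
      rename e.symm (pderiv (e i) q) := by
    intro i q
    have := pderiv_rename e.symm.injective (e i) q
    rw [e.symm_apply_apply] at this
    exact this
  have h2 := congrArg (rename e.symm) hη
  rw [map_sum, map_pow, hr, ← Equiv.sum_comp e] at h2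
  rw [← h2]
  refine Finset.sum_congr rfl fun i _ => ?_
  rw [map_add, map_mul, map_mul, map_mul, hr, rename_C, hpd]
  congr 3
  have h3 : pderiv (e i) (rename e H) = rename e (pderiv i H) := pderiv_rename e.injective i H
  rw [h3, hr]

/-! ### The class -/

/-- the facts which are used in the induction -/
structure Fct : Prop where
  v1 : S_V1
  cc : S_CC
  re : S_RE
  p5 : S_P5
  c1 : S_C1
  c2 : S_C2
  c3 : S_C3
  c4 : S_C4
  c5 : S_C5
  g : S_G
  ex : S_EX
  ch : S_CH

theorem siz_curve (hB : Fct) {R : Type} [CommRing R] (M : Meas ℂ R) (u : Rˣ) (hL : M.L = (u : R))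
    {V : Type} [Fintype V] (hV : Fintype.card V = 2) (G : MvPolynomial V ℂ)
    (h0 : constantCoeff G = 0) (m : ℕ) (hG : Pool.Agent.J4H50.IG.IsoC G m) :
    SIZ u V (G : MvPowerSeries V ℂ) (zs M ((u⁻¹ : Rˣ) : R) G) := by
  have hv : M.L * ((u⁻¹ : Rˣ) : R) = 1 := by rw [hL]; exact u.mul_inv
  have e : V ≃ Fin 2 := Fintype.equivFinOfCardEq hV
  have hr : rename e.symm (rename e G) = G := by
    rw [rename_rename, e.symm_comp_self, rename_id_apply]
  have h2 : Pool.Agent.J4H50.IG.IsoC (rename e G) m := by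
    refine Pool.Agent.J4H50.IG.iso_equiv e.symm _ ?_
    rw [hr]
    exact hG
  have hred := Pool.Agent.J4H97.YP.red_of_iso h2
  have hne : rename e G ≠ 0 := by
    intro hz
    have := hred 0 0 (by rw [hz]; ring)
    exact this (map_zero _)
  have hc : constantCoeff (rename e G) = 0 := by rw [constantCoeff_rename, h0]
  obtain ⟨Z, hZ⟩ := hB.ex u (rename e G) hne hc hred
  have h3 : zs M ((u⁻¹ : Rˣ) : R) G = Z := by
    rw [← zs_rename M _ hv hB.v1 hB.cc hB.re e G]
    exact zs_curve M u hL hB.v1 (@Fct.p5 hB) _ hc Z hZ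
  have h4 := SIZ.ren e.symm _ Z (SIZ.curve (rename e G) hne hc Z hZ)
  rw [MvPowerSeries.rename_coe, hr] at h4
  rw [h3]
  exact h4

/-- **The generating functions of the volumes of the germs of the class.** -/
theorem siz_of_SIG (hB : Fct) {R : Type} [CommRing R] (M : Meas ℂ R) (u : Rˣ)
    (hL : M.L = (u : R)) {V : Type} {G : MvPolynomial V ℂ} (h : SIG V G) :
    ∀ inst : Fintype V, SIZ u V (G : MvPowerSeries V ℂ) (@zs ℂ _ R _ M ((u⁻¹ : Rˣ) : R) V inst G) := by
  have hv : M.L * ((u⁻¹ : Rˣ) : R) = 1 := by rw [hL]; exact u.mul_inv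
  induction h with
  | @curve V I hV G h0 m hG =>
    intro inst
    obtain rfl := Subsingleton.elim I inst
    exact siz_curve hB M u hL hV G h0 m hG
  | @cone V I _ G d hd hn hG1 hG0 h1 h2 hAA ih =>
    intro inst
    obtain rfl := Subsingleton.elim I inst
    have hne : Nonempty V := by
      by_contra hc
      rw [not_nonempty_iff] at hc
      exact hG0 (hc_empty d (by omega) G)
    have hhom := homogeneousComponent_isHomogeneous d G
    obtain ⟨k, P0, hP0⟩ := hB.g (homogeneousComponent d G) (homogeneousComponent (d + 1) G) d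
      (d + 1) (by omega) (by omega) hhom (homogeneousComponent_isHomogeneous (d + 1) G) h1
    -- the representatives, and the coordinates
    obtain ⟨P, i, hP, hi, hA⟩ : ∃ (P : Fin k → V → ℂ) (i : Fin k → V),
        SP (homogeneousComponent d G) P ∧ (∀ r, P r (i r) ≠ 0) ∧
        (NonExact (homogeneousComponent d G) (-((Fintype.card V : ℕ) : ℂ) / d) ∨
          ∃ r, NV (deh (P r) (i r) (homogeneousComponent d G) :
            MvPowerSeries {j : V // j ≠ i r} ℂ) (-((Fintype.card V : ℕ) : ℂ) / d)) := by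
      have hex : ∀ r, ∃ j, P0 r j ≠ 0 := by
        intro r
        by_contra hcon
        push Not at hcon
        exact hP0.ne r (funext hcon)
      choose i0 hi0 using hex
      rcases hAA with hAA | ⟨Q, j, hQj, hQs, hNV⟩
      · exact ⟨P0, i0, hP0, hi0, Or.inl hAA⟩
      · have hQ0 : Q ≠ 0 := fun h0 => hQj (by rw [h0, Pi.zero_apply])
        obtain ⟨r0, c, hc⟩ := hP0.all' Q hQ0 hQs
        have hc0 : c ≠ 0 := by
          rintro rfl
          exact hQ0 (by rw [hc, zero_smul])
        refine ⟨fun r => (if r = r0 then c else 1) • P0 r, fun r => if r = r0 then j else i0 r,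
          hP0.scale d hhom _ (fun r => ?_), fun r => ?_, Or.inr ⟨r0, ?_⟩⟩
        · split_ifs
          · exact hc0
          · exact one_ne_zero
        · by_cases hr : r = r0
          · subst hr
            simp only [if_true]
            rw [← hc]
            exact hQj
          · simp only [if_neg hr, one_smul]
            exact hi0 r
        · have h6 : ∀ (Q' : V → ℂ) (j' : V), Q' = Q → j' = j →
              NV (deh Q' j' (homogeneousComponent d G) : MvPowerSeries {l : V // l ≠ j'} ℂ)
                (-((Fintype.card V : ℕ) : ℂ) / d) := by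
            rintro _ _ rfl rfl
            exact hNV
          exact h6 _ _ (by simp only [if_true]; exact hc.symm) (if_pos rfl)
    have h1' : ∀ r, eval (P r) (homogeneousComponent (d + 1) G) ≠ 0 := fun r =>
      h1 (P r) (hP.ne r) (hP.sing r)
    obtain ⟨i₀⟩ := hne
    have hcard : ∀ r, Fintype.card {j : V // j ≠ i r} = Fintype.card {j : V // j ≠ i₀} := by
      intro r
      have e1 := card_ne (i r)
      have e2 := card_ne i₀
      omega
    obtain ⟨ε⟩ : Nonempty (∀ r, {j : V // j ≠ i r} ≃ {j : V // j ≠ i₀}) :=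
      ⟨fun r => Fintype.equivOfCardEq (hcard r)⟩
    choose c ξ J U hc hJ hU hξ hdet hsub using fun r =>
      hB.ch G d hd hG1 i₀ (P r) (i r) (hi r) (hP.sing r) (h1' r) (ε r)
    have : Nonempty V := ⟨i₀⟩
    obtain ⟨A, hz⟩ := zs_cone M u hL hB.v1 hB.c1 hB.c2 hB.c3 hB.c4 hB.c5 G d hd hG1 P hP i hi h1'
    have hZ : ∀ r, SIZ u {j : V // j ≠ i₀}
        ((rename (ε r) (deh (P r) (i r) (homogeneousComponent d G)) :
          MvPolynomial {j : V // j ≠ i₀} ℂ) : MvPowerSeries {j : V // j ≠ i₀} ℂ)
        (zs M ((u⁻¹ : Rˣ) : R) (deh (P r) (i r) (homogeneousComponent d G))) := by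
      intro r
      have h3 := SIZ.ren (ε r) _ _ (ih (P r) (hP.ne r) (hP.sing r) (i r) (hi r) inferInstance)
      rw [MvPowerSeries.rename_coe] at h3
      exact h3
    set e := Equiv.optionSubtypeNe i₀ with he
    have hcV : Fintype.card {j : V // j ≠ i₀} + 1 = Fintype.card V := card_ne i₀
    have hf : ∀ j, homogeneousComponent j (rename e.symm G) =
        rename e.symm (homogeneousComponent j G) := fun j => (rename_homogeneousComponent j G).symm
    have hR := rest_ord (rename e.symm G) d (fun j hj => by rw [hf, hG1 j hj, map_zero])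
    rw [hf] at hR
    have hsum : ((rename e.symm (homogeneousComponent d G) :
        MvPolynomial (Option {j : V // j ≠ i₀}) ℂ) : MvPowerSeries (Option {j : V // j ≠ i₀}) ℂ) +
        ((rename e.symm G - rename e.symm (homogeneousComponent d G) :
          MvPolynomial (Option {j : V // j ≠ i₀}) ℂ) :
          MvPowerSeries (Option {j : V // j ≠ i₀}) ℂ) =
        ((rename e.symm G : MvPolynomial (Option {j : V // j ≠ i₀}) ℂ) :
          MvPowerSeries (Option {j : V // j ≠ i₀}) ℂ) := by
      rw [← MvPolynomial.coe_add, add_sub_cancel]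
    have hpd : ∀ (x : Option {j : V // j ≠ i₀} → ℂ) (l : V),
        eval x (pderiv (e.symm l) (rename e.symm (homogeneousComponent d G))) =
        eval (fun v => x (e.symm v)) (pderiv l (homogeneousComponent d G)) := by
      intro x l
      rw [pderiv_rename e.symm.injective, eval_rename]
      rfl
    have key := SIZ.cone (L := u) (τ := {j : V // j ≠ i₀}) (ι := Fin k) d hd
      (rename e.symm (homogeneousComponent d G)) (hhom.rename_isHomogeneous)
      (fun h0 => hG0 (rename_injective _ e.symm.injective (by rw [h0, map_zero])))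
      ((rename e.symm G - rename e.symm (homogeneousComponent d G) :
          MvPolynomial (Option {j : V // j ≠ i₀}) ℂ) :
          MvPowerSeries (Option {j : V // j ≠ i₀}) ℂ) hR
      (fun r l => c r * P r (e l))
      (fun r s hrs c' hc' => by
        apply hP.inj r s hrs ((c r)⁻¹ * (c' * c s))
        funext v
        have h3 := congrFun hc' (e.symm v)
        simp only [Pi.smul_apply, smul_eq_mul, e.apply_symm_apply] at h3
        rw [Pi.smul_apply, smul_eq_mul]
        have h4 := hc r
        field_simp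
        linear_combination h3)
      (fun x hx hs => by
        obtain ⟨r, c', hc'⟩ := hP.all' (fun v => x (e.symm v))
          (fun h0 => hx (funext fun o => by
            have h3 := congrFun h0 (e o)
            simp only [e.symm_apply_apply] at h3
            exact h3))
          (fun l => by rw [← hpd]; exact hs _)
        refine ⟨r, c' * (c r)⁻¹, funext fun o => ?_⟩
        have h3 := congrFun hc' (e o)
        simp only [e.symm_apply_apply] at h3
        rw [h3, Pi.smul_apply, Pi.smul_apply, smul_eq_mul, smul_eq_mul]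
        have h4 := hc r
        field_simp)
      (by omega) ξ hξ J U hJ hU hdet _ _ hZ
      (fun r => by
        rw [hsum]
        exact hsub r) A
      (by
        rw [hcV]
        rcases hA with hA | ⟨r, hr⟩
        · exact Or.inl (nonExact_ren e.symm _ _ hA)
        · refine Or.inr ⟨r, ?_, ?_⟩
          · rw [← MvPowerSeries.rename_coe]
            exact (Pool.Agent.J4H19.YO.t_RN (ε r) _ _).1 hr
          · intro x hx
            have h6 : x = Finsupp.mapDomain (ε r) (Finsupp.mapDomain (ε r).symm x) := by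
              rw [← Finsupp.mapDomain_comp, Equiv.self_comp_symm, Finsupp.mapDomain_id]
            rw [coeff_coe, h6, coeff_rename_mapDomain _ (ε r).injective]
            refine Pool.Agent.J4H94.YP.sing_ad hhom (by omega) (P r) (i r) (hP.sing r) _ ?_
            rw [Finsupp.degree_mapDomain]
            exact hx)
    rw [hsum, hcV, ← hz] at key
    have h5 := SIZ.ren e _ _ key
    rw [MvPowerSeries.rename_coe, rename_rename, e.self_comp_symm, rename_id_apply] at h5
    exact h5

end Pool.Agent.J4H50.YJ
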