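import Pool.Agent.J4H50.YJ.Fin
import Pool.Agent.J4H50.YP.Top
import Pool.Agent.J4H94.YP.G
import Pool.Agent.J4H2.YM.M1
import Pool.Agent.J4H19.YM.M3
import Pool.Agent.J4H97.YM.M4
import Pool.Agent.J4H19.YM.M8

set_option autoImplicit false
set_option linter.unusedSectionVars false
set_option linter.unusedVariables false

/-! # Project YJ: the zeta functions of superisolated germs, without charts -/

namespace Pool.Agent.J4H50.YJ

open MvPolynomial
open Pool.Agent.W428.MOT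
open Pool.Agent.TH192.MT (ar zetaO JetS exists_meas)
open Pool.Agent.J4H50.YP (deh SIG SI hc_empty rest_ord)
open Pool.Agent.J4H50.YO (RedZeta NV NonExact Sing re_div cone_sing cone_ne)
open Pool.Agent.J4H50.TF (FEv_of_formal formal_root)
open Pool.Agent.W574.MO (mf DenRing Kb geo qq geo_mul geo11_mem)
open Pool.Agent.J4H50.YM (KN Dec Dec.mono den_mono dec_curve)
open Pool.Agent.Y229.PS (IsFormalBFunction formal_of_local)
open Pool.Agent.H628R4.TP (IsLocalBFunction)

theorem coe_split {V : Type} (G : MvPolynomial V ℂ) (d : ℕ) :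
    ((homogeneousComponent d G : MvPolynomial V ℂ) : MvPowerSeries V ℂ) +
      ((G - homogeneousComponent d G : MvPolynomial V ℂ) : MvPowerSeries V ℂ) =
      (G : MvPowerSeries V ℂ) := by
  rw [← MvPolynomial.coe_add, add_sub_cancel]

theorem kn_deh {V : Type} [Fintype V] [DecidableEq V] (G : MvPolynomial V ℂ) (d : ℕ) (hd : 2 ≤ d)
    (hn : Fintype.card V ≤ d + 1) (hG1 : ∀ j < d, homogeneousComponent j G = 0) (P : V → ℂ) (i : V)
    (hPi : P i ≠ 0) (hPs : ∀ l, eval P (pderiv l (homogeneousComponent d G)) = 0)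
    (h1 : eval P (homogeneousComponent (d + 1) G) ≠ 0) (a m : ℕ) (ha : 1 ≤ a) (hm : 1 ≤ m)
    (hK : NV (deh P i (homogeneousComponent d G) : MvPowerSeries {j : V // j ≠ i} ℂ)
      (-(m : ℂ) / a)) :
    NV (G : MvPowerSeries V ℂ)
      (-((m + Fintype.card V * a : ℕ) : ℂ) / (((d + 1) * a : ℕ) : ℂ)) := by
  have hac : (a : ℂ) ≠ 0 := Nat.cast_ne_zero.2 (by omega)
  have hd1 : ((d : ℂ) + 1) ≠ 0 := by
    have : ((d + 1 : ℕ) : ℂ) ≠ 0 := Nat.cast_ne_zero.2 (by omega)
    rwa [Nat.cast_add, Nat.cast_one] at this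
  refine Pool.Agent.J4H94.YP.t_G G d hd hG1 P i hPi hPs h1 _ _ ?_ ?_ ?_ hK
  · push_cast
    field_simp
    ring
  · intro j hj
    have h2 : (-((m + Fintype.card V * a : ℕ) : ℂ) / (((d + 1) * a : ℕ) : ℂ)).re < 0 := by
      rw [neg_div]
      exact re_div (by omega) (by positivity)
    rw [hj, Complex.natCast_re] at h2
    exact absurd h2 (not_lt.2 (Nat.cast_nonneg j))
  · intro j hj hcon
    have h5 : (((d + 1) * a * j + d * m : ℕ) : ℂ) = ((Fintype.card V * a : ℕ) : ℂ) := by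
      push_cast at hcon ⊢
      field_simp at hcon
      linear_combination -hcon
    have h6 : (d + 1) * a * j + d * m = Fintype.card V * a := by exact_mod_cast h5
    have h7 : Fintype.card V * a ≤ (d + 1) * a := Nat.mul_le_mul_right a hn
    have h8 : (d + 1) * a ≤ (d + 1) * a * j := Nat.le_mul_of_pos_right _ (by omega)
    have h9 : 0 < d * m := Nat.mul_pos (by omega) (by omega)
    omega

/-- **The cone.** -/
theorem dec_cone (hB : Fct) {R : Type} [CommRing R] (M : Meas ℂ R) (u : Rˣ) (hL : M.L = (u : R))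
    {V : Type} [Fintype V] [DecidableEq V] (G : MvPolynomial V ℂ) (d : ℕ) (hd : 2 ≤ d)
    (hn : Fintype.card V ≤ d + 1) (hG1 : ∀ j < d, homogeneousComponent j G = 0)
    (hG0 : homogeneousComponent d G ≠ 0)
    (h1 : ∀ P : V → ℂ, P ≠ 0 → (∀ l, eval P (pderiv l (homogeneousComponent d G)) = 0) →
      eval P (homogeneousComponent (d + 1) G) ≠ 0)
    (h2 : ∀ P : V → ℂ, P ≠ 0 → (∀ l, eval P (pderiv l (homogeneousComponent d G)) = 0) →
      ∀ i, P i ≠ 0 → Dec u (KN (deh P i (homogeneousComponent d G) :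
        MvPowerSeries {j : V // j ≠ i} ℂ))
        (zs M ((u⁻¹ : Rˣ) : R) (deh P i (homogeneousComponent d G))))
    (K' : ℕ → ℕ → Prop) (hK' : ∀ a m, KN (G : MvPowerSeries V ℂ) a m → K' a m)
    (hdn : K' d (Fintype.card V)) : Dec u K' (zs M ((u⁻¹ : Rˣ) : R) G) := by
  have hne : Nonempty V := by
    by_contra hc
    rw [not_nonempty_iff] at hc
    exact hG0 (hc_empty d (by omega) G)
  have hhom := homogeneousComponent_isHomogeneous d G
  have hS : Sing (G : MvPowerSeries V ℂ) := by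
    have h3 := cone_sing hd hhom (rest_ord G d hG1)
    rwa [coe_split] at h3
  obtain ⟨k, P, hP⟩ := hB.g (homogeneousComponent d G) (homogeneousComponent (d + 1) G) d
    (d + 1) (by omega) (by omega) hhom (homogeneousComponent_isHomogeneous (d + 1) G) h1
  have hex : ∀ r, ∃ j, P r j ≠ 0 := by
    intro r
    by_contra hcon
    push Not at hcon
    exact hP.ne r (funext hcon)
  choose i hi using hex
  obtain ⟨A, hz⟩ := zs_cone M u hL hB.v1 hB.c1 hB.c2 hB.c3 hB.c4 hB.c5 G d hd hG1 P hP i hi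
    (fun r => h1 (P r) (hP.ne r) (hP.sing r))
  rw [hz]
  refine Pool.Agent.J4H19.YM.t_M8 u (Fintype.card V) d Fintype.card_pos (by omega) A _
    (fun r => KN (deh (P r) (i r) (homogeneousComponent d G) : MvPowerSeries {j : V // j ≠ i r} ℂ))
    K' hdn ?_ (fun r => h2 (P r) (hP.ne r) (hP.sing r) (i r) (hi r))
  rintro r a m ha hm ⟨hK, -⟩
  exact hK' _ _ ⟨kn_deh G d hd hn hG1 (P r) (i r) (hi r) (hP.sing r)
    (h1 (P r) (hP.ne r) (hP.sing r)) a m ha hm hK, hS⟩

/-- the number `- n / d` -/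
theorem kn_top {V : Type} [Fintype V] [DecidableEq V] (G : MvPolynomial V ℂ) (d : ℕ) (hd : 2 ≤ d)
    (hG1 : ∀ j < d, homogeneousComponent j G = 0) (hG0 : homogeneousComponent d G ≠ 0)
    (h1 : ∀ P : V → ℂ, P ≠ 0 → (∀ l, eval P (pderiv l (homogeneousComponent d G)) = 0) →
      eval P (homogeneousComponent (d + 1) G) ≠ 0)
    (hA : NonExact (homogeneousComponent d G) (-((Fintype.card V : ℕ) : ℂ) / d) ∨
        ∃ (P : V → ℂ) (i : V), P i ≠ 0 ∧
          (∀ l, eval P (pderiv l (homogeneousComponent d G)) = 0) ∧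
          NV (deh P i (homogeneousComponent d G) : MvPowerSeries {j : V // j ≠ i} ℂ)
            (-((Fintype.card V : ℕ) : ℂ) / d)) : KN (G : MvPowerSeries V ℂ) d (Fintype.card V) := by
  have hhom := homogeneousComponent_isHomogeneous d G
  have hdc : (d : ℂ) ≠ 0 := Nat.cast_ne_zero.2 (by omega)
  have hS : Sing (G : MvPowerSeries V ℂ) := by
    have h3 := cone_sing hd hhom (rest_ord G d hG1)
    rwa [coe_split] at h3
  have hne : Nonempty V := by
    by_contra hc
    rw [not_nonempty_iff] at hc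
    exact hG0 (hc_empty d (by omega) G)
  have hn1 : 1 ≤ Fintype.card V := Fintype.card_pos_iff.2 hne
  refine ⟨?_, hS⟩
  rcases hA with hA | ⟨P, i, hPi, hPs, hNV⟩
  · have h3 := Pool.Agent.J4H28.YO.t_NE d (homogeneousComponent d G)
      ((G - homogeneousComponent d G : MvPolynomial V ℂ) : MvPowerSeries V ℂ) (by omega)
      hhom hG0 (rest_ord G d hG1) hA
    rwa [coe_split] at h3
  · have hP0 : P ≠ 0 := fun h0 => hPi (by rw [h0, Pi.zero_apply])
    refine Pool.Agent.J4H94.YP.t_G G d hd hG1 P i hPi hPs (h1 P hP0 hPs) _ _ ?_ ?_ ?_ hNV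
    · field_simp
      ring
    · intro m hm
      have h5 : (((Fintype.card V + m * d : ℕ)) : ℂ) = 0 := by
        push_cast
        rw [← hm]
        field_simp
        ring
      have h6 : Fintype.card V + m * d = 0 := by exact_mod_cast h5
      omega
    · intro j hj hc
      have h5 : (j : ℂ) = 0 := by
        rw [← hc]
        field_simp
        ring
      have h6 : j = 0 := by exact_mod_cast h5
      omega

theorem dec_cv (hB : Fct) {R : Type} [CommRing R] (M : Meas ℂ R) (u : Rˣ) (hL : M.L = (u : R))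
    {V : Type} [Fintype V] (hV : Fintype.card V = 2) (G : MvPolynomial V ℂ)
    (h0 : constantCoeff G = 0) (m : ℕ) (hG : Pool.Agent.J4H50.IG.IsoC G m) :
    Dec u (KN (G : MvPowerSeries V ℂ)) (zs M ((u⁻¹ : Rˣ) : R) G) := by
  have hv : M.L * ((u⁻¹ : Rˣ) : R) = 1 := by rw [hL]; exact u.mul_inv
  have e : V ≃ Fin 2 := Fintype.equivFinOfCardEq hV
  have hr : rename e.symm (rename e G) = G := by
    rw [rename_rename, e.symm_comp_self, rename_id_apply]
  have h2 : Pool.Agent.J4H50.IG.IsoC (rename e G) m := by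
    refine Pool.Agent.J4H50.IG.iso_equiv e.symm _ ?_
    rw [hr]
    exact hG
  have hred := Pool.Agent.J4H97.YP.red_of_iso h2
  have hne : rename e G ≠ 0 := by
    intro hz
    have := hred 0 0 (by rw [hz]; ring)
    exact this (map_zero _)
  have hc : constantCoeff (rename e G) = 0 := by rw [constantCoeff_rename, h0]
  obtain ⟨Z, hZ⟩ := hB.ex u (rename e G) hne hc hred
  have h3 : zs M ((u⁻¹ : Rˣ) : R) G = Z := by
    rw [← zs_rename M _ hv hB.v1 hB.cc hB.re e G]
    exact zs_curve M u hL hB.v1 (@Fct.p5 hB) _ hc Z hZ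
  have h4 := dec_curve Pool.Agent.J4H19.YO.t_RN Pool.Agent.J4H2.YM.t_M1 Pool.Agent.J4H2.YM.t_M2
    Pool.Agent.J4H19.YM.t_M3 Pool.Agent.J4H97.YM.t_M4 u hne hc hZ
  rw [h3]
  refine h4.mono fun a n _ _ h => ?_
  have h5 : MvPowerSeries.rename e.symm ((rename e G : MvPolynomial (Fin 2) ℂ) :
      MvPowerSeries (Fin 2) ℂ) = (G : MvPowerSeries V ℂ) := by
    rw [MvPowerSeries.rename_coe, hr]
  have h6 := (Pool.Agent.J4H19.YO.t_RN e.symm ((rename e G : MvPolynomial (Fin 2) ℂ) :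
    MvPowerSeries (Fin 2) ℂ) (-(n : ℂ) / a)).1 h.1
  have h7 := (Pool.Agent.J4H19.YO.t_RN e.symm ((rename e G : MvPolynomial (Fin 2) ℂ) :
    MvPowerSeries (Fin 2) ℂ) 0).2 h.2
  rw [h5] at h6 h7
  exact ⟨h6, h7⟩

/-- **The germs of the class.** -/
theorem dec_of_SIG (hB : Fct) {R : Type} [CommRing R] (M : Meas ℂ R) (u : Rˣ)
    (hL : M.L = (u : R)) {V : Type} {G : MvPolynomial V ℂ} (h : SIG V G) :
    ∀ inst : Fintype V, Dec u (KN (G : MvPowerSeries V ℂ))
      (@zs ℂ _ R _ M ((u⁻¹ : Rˣ) : R) V inst G) := by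
  induction h with
  | @curve V I hV G h0 m hG =>
    intro inst
    obtain rfl := Subsingleton.elim I inst
    exact dec_cv hB M u hL hV G h0 m hG
  | @cone V I _ G d hd hn hG1 hG0 h1 h2 hAA ih =>
    intro inst
    obtain rfl := Subsingleton.elim I inst
    exact dec_cone hB M u hL G d hd hn hG1 hG0 h1
      (fun P hP hPs i hi => ih P hP hPs i hi inferInstance) _ (fun a m h => h)
      (kn_top G d hd hG1 hG0 h1 hAA)

/-- **The local motivic zeta function of a superisolated singularity.** -/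
theorem main_si (hB : Fct') {n : ℕ} (f : MvPolynomial (Fin n) ℂ) (hf : SI (Fin n) f) :
    ∃ S : Finset (ℤ × ℤ), (∀ q ∈ S, q.1 < 0 ∧ 0 < q.2 ∧
      ∀ b : Polynomial ℂ, IsLocalBFunction f b → b.eval ((q.1 : ℂ) / q.2) = 0) ∧
      zetaO f ∈ ratRing ℂ (S : Set (ℤ × ℤ)) := by
  obtain ⟨M, hL, hχ⟩ := exists_meas ℂ
  obtain ⟨b₀, hb₀, hdvd⟩ := exists_gen (f : MvPowerSeries (Fin n) ℂ)
  obtain ⟨d, hd, hn, hG1, hG0, h12, hA⟩ := hf
  have h1 : ∀ P : Fin n → ℂ, P ≠ 0 →
      (∀ l, eval P (pderiv l (homogeneousComponent d f)) = 0) →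
      eval P (homogeneousComponent (d + 1) f) ≠ 0 := fun P hP h => (h12 P hP h).1
  have hf0 : (f : MvPowerSeries (Fin n) ℂ) ≠ 0 := by
    rw [Ne, MvPolynomial.coe_eq_zero_iff]
    rintro rfl
    exact hG0 (map_zero _)
  have hfc : MvPowerSeries.constantCoeff (f : MvPowerSeries (Fin n) ℂ) = 0 := by
    have h3 := cone_sing hd (homogeneousComponent_isHomogeneous d f) (rest_ord f d hG1) 0
      (by rw [map_zero]; exact Nat.zero_le 1)
    rwa [coe_split, MvPowerSeries.coeff_zero_eq_constantCoeff_apply] at h3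
  have hm1 := formal_root hf0 hfc hb₀
  have hK : ∀ a n', KN (f : MvPowerSeries (Fin n) ℂ) a n' → Kb b₀ a n' := by
    intro a n' h
    by_contra hne
    exact Pool.Agent.J4H45.YO.t_NFE _ _ h.2 h.1 (FEv_of_formal hf0 hb₀ hne)
  have hdn : Kb b₀ d (Fintype.card (Fin n)) := by
    rcases hA with hA | hA
    · rw [hA, Kb]
      have hdc : (d : ℂ) ≠ 0 := Nat.cast_ne_zero.2 (by omega)
      rw [neg_div, div_self hdc]
      exact hm1
    · exact hK _ _ (kn_top f d hd hG1 hG0 h1 hA)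
  obtain ⟨ρ, r, e1, e2, e3, e4⟩ := dec_cone hB.toFct M (Lu ℂ) hL f d hd hn hG1 hG0 h1
    (fun P hP hPs i hi => dec_of_SIG hB.toFct M (Lu ℂ) hL ((h12 P hP hPs).2 i hi) inferInstance)
    (Kb b₀) hK hdn
  have hg : geo (Lu ℂ) 1 1 ∈ DenRing (Lu ℂ) (Kb b₀) := geo11_mem (Lu ℂ) b₀ hm1
  have h5 : ρ = (1 - qq (Lu ℂ) 1 1) * ρ * geo (Lu ℂ) 1 1 := by
    linear_combination (-ρ) * geo_mul (Lu ℂ) le_rfl 1
  have hρ : ρ ∈ DenRing (Lu ℂ) (Kb b₀) := by
    rw [h5]
    exact Subring.mul_mem _ e3 hg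
  have h2 : zs M (((Lu ℂ)⁻¹ : (MK ℂ)ˣ) : MK ℂ) f ∈ DenRing (Lu ℂ) (Kb b₀) := by
    rw [e1]
    exact Subring.add_mem _ (Subring.mul_mem _ (Pool.Agent.W574.MO.C_mem _) hρ) e2
  obtain ⟨S, hS, hSz⟩ := hB.z b₀ _ h2
  refine ⟨S, fun q hq => ⟨(hS q hq).1, (hS q hq).2.1, fun b hb => ?_⟩, ?_⟩
  · obtain ⟨c, rfl⟩ := hdvd b (formal_of_local hb)
    rw [Polynomial.eval_mul, (hS q hq).2.2, zero_mul]
  · rw [zetaO_eq hB.v0 M hL (fun ι _ S => hχ ι S) f]
    refine Subalgebra.mul_mem _ ?_ hSz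
    exact Subalgebra.algebraMap_mem (ratRing ℂ (S : Set (ℤ × ℤ))) _

end Pool.Agent.J4H50.YJ
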