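import Pool.Agent.J4H50.YJ.Stm

set_option autoImplicit false
set_option linter.unusedSectionVars false

/-! # Project YJ: cylinders -/

namespace Pool.Agent.J4H50.YJ

open MvPolynomial
open Pool.Agent.W428.MOT
open Pool.Agent.TH192.MT (ar)

section Cy

variable {K : Type} [Field K] {R : Type} [CommRing R] {σ : Type} [Fintype σ]

theorem ev_some (x : Ac K σ) (f : MvPolynomial σ K) : ev x (rename some f) = aeval x f := by
  rw [ev, aeval_rename]
  rfl

theorem ev_none (x : Ac K σ) : ev x (X none) = PowerSeries.X := by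
  rw [ev, aeval_X]
  rfl

theorem ev_X (x : Ac K σ) (i : σ) : ev x (X (some i)) = x i := by
  rw [ev, aeval_X]
  rfl

theorem cyl_coeff (hB : S_CC) (f : MvPolynomial σ K) (m : ℕ) :
    IsCyl {x : Ac K σ | PowerSeries.coeff m (aeval x f) = 0} := by
  have h := (hB (K := K) (σ := σ)).1 (rename some f) m
  simp only [ev_some] at h
  exact h

theorem cyl_coord (hB : S_CC) (i : σ) (m : ℕ) :
    IsCyl {x : Ac K σ | PowerSeries.coeff m (x i) = 0} := by
  have h := cyl_coeff (K := K) hB (X i) m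
  simp only [aeval_X] at h
  exact h

/-- a measure is needed to use (V1) -/
theorem cyl_ops (M : Meas K R) (v : R) (hv : M.L * v = 1) (hV : S_V1) :
    (∀ A : Set (Ac K σ), IsCyl A → IsCyl Aᶜ) ∧
    (∀ A B : Set (Ac K σ), IsCyl A → IsCyl B → IsCyl (A ∩ B)) ∧
    (∀ A B : Set (Ac K σ), IsCyl A → IsCyl B → IsCyl (A ∪ B)) ∧
    IsCyl (Set.univ : Set (Ac K σ)) ∧ IsCyl (∅ : Set (Ac K σ)) := by
  obtain ⟨h1, h2, -, -, -⟩ := hV M v hv (σ := σ)
  have h3 : IsCyl (Set.univ : Set (Ac K σ)) := by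
    refine ⟨0, fun _ _ _ _ => Set.mem_univ _, ?_⟩
    exact Constr.univ
  refine ⟨h1, fun A B hA hB => (h2 A B hA hB).1, fun A B hA hB => (h2 A B hA hB).2, h3, ?_⟩
  have h4 := h1 _ h3
  rwa [Set.compl_univ] at h4

variable (M : Meas K R) (v : R) (hv : M.L * v = 1)

include hv in
theorem cyl_finInter (hV : S_V1) {α : Type} (s : Finset α) (A : α → Set (Ac K σ))
    (hA : ∀ a ∈ s, IsCyl (A a)) : IsCyl {x | ∀ a ∈ s, x ∈ A a} := by
  classical
  induction s using Finset.induction_on with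
  | empty =>
    have h : {x : Ac K σ | ∀ a ∈ (∅ : Finset α), x ∈ A a} = Set.univ := by
      ext x
      simp
    rw [h]
    exact (cyl_ops M v hv hV).2.2.2.1
  | insert a s ha ih =>
    have h : {x : Ac K σ | ∀ b ∈ insert a s, x ∈ A b} = A a ∩ {x | ∀ b ∈ s, x ∈ A b} := by
      ext x
      simp only [Set.mem_ofPred_eq, Finset.mem_insert, forall_eq_or_imp, Set.mem_inter_iff]
    rw [h]
    exact (cyl_ops M v hv hV).2.1 _ _ (hA a (Finset.mem_insert_self _ _))
      (ih fun b hb => hA b (Finset.mem_insert_of_mem hb))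

include hv in
theorem cyl_finUnion (hV : S_V1) {α : Type} (s : Finset α) (A : α → Set (Ac K σ))
    (hA : ∀ a ∈ s, IsCyl (A a)) : IsCyl {x | ∃ a ∈ s, x ∈ A a} := by
  have h := (cyl_ops M v hv hV).1 _ (cyl_finInter M v hv hV s (fun a => (A a)ᶜ)
    fun a ha => (cyl_ops M v hv hV).1 _ (hA a ha))
  have e : {x : Ac K σ | ∀ a ∈ s, x ∈ (A a)ᶜ}ᶜ = {x | ∃ a ∈ s, x ∈ A a} := by
    ext x
    simp only [Set.mem_compl_iff, Set.mem_ofPred_eq]
    push Not
    rfl
  rwa [e] at h

include hv in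
/-- finite disjoint unions -/
theorem vol_finUnion (hV : S_V1) {α : Type} (s : Finset α) (A : α → Set (Ac K σ))
    (hA : ∀ a ∈ s, IsCyl (A a)) (hd : ∀ a ∈ s, ∀ b ∈ s, a ≠ b → Disjoint (A a) (A b)) :
    vol M v {x | ∃ a ∈ s, x ∈ A a} = ∑ a ∈ s, vol M v (A a) := by
  classical
  induction s using Finset.induction_on with
  | empty =>
    have h : {x : Ac K σ | ∃ a ∈ (∅ : Finset α), x ∈ A a} = ∅ := by
      ext x
      simp
    rw [h, Finset.sum_empty]
    exact (hV M v hv (σ := σ)).2.2.2.2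
  | insert a s ha ih =>
    have h : {x : Ac K σ | ∃ b ∈ insert a s, x ∈ A b} = A a ∪ {x | ∃ b ∈ s, x ∈ A b} := by
      ext x
      simp only [Set.mem_ofPred_eq, Finset.mem_insert, exists_eq_or_imp, Set.mem_union]
    rw [h, (hV M v hv (σ := σ)).2.2.1 _ _ (hA a (Finset.mem_insert_self _ _))
      (cyl_finUnion M v hv hV s A fun b hb => hA b (Finset.mem_insert_of_mem hb)) ?_,
      Finset.sum_insert ha, ih (fun b hb => hA b (Finset.mem_insert_of_mem hb))
        (fun b hb c hc => hd b (Finset.mem_insert_of_mem hb) c (Finset.mem_insert_of_mem hc))]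
    rw [Set.disjoint_left]
    rintro x hx ⟨b, hb, hxb⟩
    exact Set.disjoint_left.1 (hd a (Finset.mem_insert_self _ _) b (Finset.mem_insert_of_mem hb)
      (fun h => ha (h ▸ hb))) hx hxb

include hv in
theorem vol_diff (hV : S_V1) (A B : Set (Ac K σ)) (hA : IsCyl A) (hB : IsCyl B) (h : B ⊆ A) :
    vol M v {x | x ∈ A ∧ x ∉ B} = vol M v A - vol M v B := by
  have h1 : IsCyl {x : Ac K σ | x ∈ A ∧ x ∉ B} :=
    (cyl_ops M v hv hV).2.1 _ _ hA ((cyl_ops M v hv hV).1 _ hB)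
  have h2 := (hV M v hv (σ := σ)).2.2.1 {x : Ac K σ | x ∈ A ∧ x ∉ B} B h1 hB
    (Set.disjoint_left.2 fun x hx hxB => hx.2 hxB)
  have h3 : {x : Ac K σ | x ∈ A ∧ x ∉ B} ∪ B = A := by
    ext x
    simp only [Set.mem_union, Set.mem_ofPred_eq]
    constructor
    · rintro (h4 | h4)
      · exact h4.1
      · exact h h4
    · intro h4
      by_cases h5 : x ∈ B
      · exact Or.inr h5
      · exact Or.inl ⟨h4, h5⟩
  rw [h3] at h2
  rw [h2, add_sub_cancel_right]

include hv in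
theorem cyl_Od_ev (hV : S_V1) (hC : S_CC) (f : MvPolynomial (Option σ) K) (l : ℕ) :
    IsCyl {x : Ac K σ | Od (ev x f) l} := by
  have h1 := cyl_finInter M v hv hV (Finset.range l)
    (fun j => {x : Ac K σ | PowerSeries.coeff j (ev x f) = 0}) fun j _ => (hC (K := K) (σ := σ)).1 f j
  have h2 := (cyl_ops M v hv hV).1 _ ((hC (K := K) (σ := σ)).1 f l)
  have h3 := (cyl_ops M v hv hV).2.1 _ _ h1 h2
  have e : {x : Ac K σ | ∀ j ∈ Finset.range l, x ∈ {x : Ac K σ | PowerSeries.coeff j (ev x f) = 0}} ∩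
      {x : Ac K σ | PowerSeries.coeff l (ev x f) = 0}ᶜ = {x : Ac K σ | Od (ev x f) l} := by
    ext x
    simp only [Set.mem_inter_iff, Set.mem_ofPred_eq, Finset.mem_range, Set.mem_compl_iff]
    rfl
  rwa [e] at h3

include hv in
theorem cyl_Od (hV : S_V1) (hC : S_CC) (f : MvPolynomial σ K) (l : ℕ) :
    IsCyl {x : Ac K σ | Od (aeval x f) l} := by
  have h := cyl_Od_ev M v hv hV hC (rename some f) l
  simp only [ev_some] at h
  exact h

include hv in
theorem cyl_Odx (hV : S_V1) (hC : S_CC) (i : σ) (l : ℕ) : IsCyl {x : Ac K σ | Od (x i) l} := by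
  have h := cyl_Od M v hv hV hC (X i) l
  simp only [aeval_X] at h
  exact h

include hv in
theorem cyl_oc (hV : S_V1) (hC : S_CC) (i : σ) (c : Option ℕ) : IsCyl {x : Ac K σ | oc c (x i)} := by
  cases c with
  | none => exact cyl_coord hC i 0
  | some l => exact cyl_Odx M v hv hV hC i l

include hv in
theorem cyl_A1 (hV : S_V1) (hC : S_CC) (F : MvPolynomial σ K) (l : ℕ) : IsCyl (A1 F l) := by
  have h1 := cyl_finInter M v hv hV Finset.univ
    (fun i => {x : Ac K σ | PowerSeries.coeff 0 (x i) = 0}) fun i _ => cyl_coord hC i 0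
  have h2 := (cyl_ops M v hv hV).2.1 _ _ h1 (cyl_Od M v hv hV hC F l)
  have e : {x : Ac K σ | ∀ i ∈ Finset.univ, x ∈ {x : Ac K σ | PowerSeries.coeff 0 (x i) = 0}} ∩
      {x : Ac K σ | Od (aeval x F) l} = A1 F l := by
    ext x
    simp only [Set.mem_inter_iff, Set.mem_ofPred_eq, Finset.mem_univ, forall_const, A1]
  rwa [e] at h2

theorem cyl_A2 (M : Meas K R) (v : R) (hv : M.L * v = 1) (hV : S_V1) (hC : S_CC)
    (h : MvPolynomial (Fin 2) K) (c0 c1 : Option ℕ) (l : ℕ) : IsCyl (A2 h c0 c1 l) :=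
  (cyl_ops M v hv hV).2.1 _ _ (cyl_oc M v hv hV hC 0 c0)
    ((cyl_ops M v hv hV).2.1 _ _ (cyl_oc M v hv hV hC 1 c1) (cyl_Od M v hv hV hC h l))

/-- `Qm` is given by a polynomial in `t` and `ξ` -/
noncomputable def qp (F : MvPolynomial σ K) (d m : ℕ) : MvPolynomial (Option σ) K :=
  ∑ j ∈ Finset.range (F.totalDegree + 1), X none ^ (m * (j - d)) *
    rename some (homogeneousComponent j F)

theorem Qm_ev (F : MvPolynomial σ K) (d m : ℕ) (ξ : Ac K σ) : Qm F d m ξ = ev ξ (qp F d m) := by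
  rw [Qm, qp, ev, map_sum]
  refine Finset.sum_congr rfl fun j _ => ?_
  rw [map_mul, map_pow, aeval_X, aeval_rename]
  rfl

include hv in
theorem cyl_Qm (hV : S_V1) (hC : S_CC) (F : MvPolynomial σ K) (d m l : ℕ) :
    IsCyl {ξ : Ac K σ | Od (Qm F d m ξ) l} := by
  have h := cyl_Od_ev M v hv hV hC (qp F d m) l
  simp only [← Qm_ev] at h
  exact h

theorem Od_unique {F : Type} [Field F] {x : PowerSeries F} {l l' : ℕ} (h : Od x l) (h' : Od x l') :
    l = l' := by
  rcases lt_trichotomy l l' with h1 | h1 | h1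
  · exact absurd (h'.1 l h1) h.2
  · exact h1
  · exact absurd (h.1 l' h1) h'.2

/-- other names of the variables -/
theorem vol_A1_rename (M : Meas K R) (v : R) (hv : M.L * v = 1) (hV : S_V1) (hC : S_CC)
    (hRE : S_RE) {τ : Type} [Fintype τ] (e : σ ≃ τ) (f : MvPolynomial σ K) (l : ℕ) :
    vol M v (A1 (rename e f) l) = vol M v (A1 f l) := by
  rw [← (hRE M v hv e (A1 f l) (cyl_A1 M v hv hV hC f l)).2]
  congr 1
  ext x
  simp only [A1, Set.mem_ofPred_eq, aeval_rename]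
  refine and_congr ⟨fun h i => h (e i), fun h i => ?_⟩ Iff.rfl
  have := h (e.symm i)
  rwa [e.apply_symm_apply] at this

theorem zs_rename (M : Meas K R) (v : R) (hv : M.L * v = 1) (hV : S_V1) (hC : S_CC)
    (hRE : S_RE) {τ : Type} [Fintype τ] (e : σ ≃ τ) (f : MvPolynomial σ K) :
    zs M v (rename e f) = zs M v f := by
  unfold zs
  congr 1
  funext l
  rw [vol_A1_rename M v hv hV hC hRE e f l, Fintype.card_congr e]

end Cy

end Pool.Agent.J4H50.YJ
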