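import Pool.Agent.J4H50.YJ.Asm
import Pool.Agent.TH192.MT.Top
import Pool.Agent.Y229.PS.Coord
import Pool.Agent.W375.MT.Jet

set_option autoImplicit false
set_option linter.unusedSectionVars false
set_option linter.unusedVariables false

/-! # Project YJ: the local motivic zeta function, with spaces of jets -/

namespace Pool.Agent.J4H50.YJ

open MvPolynomial
open Pool.Agent.W428.MOT
open Pool.Agent.TH192.MT (ar zetaO JetS exists_meas)
open Pool.Agent.J4H50.YP (SIG)
open Pool.Agent.J4H50.YM (SIZ)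
open Pool.Agent.Y229.PS (IsFormalBFunction formal_iff WW B1 formal_of_local)
open Pool.Agent.H628R4.TP (IsLocalBFunction)

/-! ### The generator of the ideal of the functional equations -/

theorem WW.smulP {n : ℕ} {ι : Type} {B : ι → ℕ → MvPowerSeries (Fin n) ℂ}
    {F : ℕ → MvPowerSeries (Fin n) ℂ} (hF : WW B F) (c : Polynomial ℂ) :
    WW B (fun s => c.eval (s : ℂ) • F s) := by
  induction c using Polynomial.induction_on with
  | C a =>
    simp only [Polynomial.eval_C]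
    exact hF.smulC a
  | add p q hp hq =>
    simp only [Polynomial.eval_add, add_smul]
    exact hp.add hq
  | monomial k a h =>
    have h1 := h.smulS
    convert h1 using 2 with s
    rw [smul_smul]
    congr 1
    rw [pow_succ, ← mul_assoc, Polynomial.eval_mul, Polynomial.eval_X, mul_comm]

theorem exists_gen {n : ℕ} (f : MvPowerSeries (Fin n) ℂ) : ∃ b₀ : Polynomial ℂ,
    IsFormalBFunction f b₀ ∧ ∀ b, IsFormalBFunction f b → b₀ ∣ b := by
  let I : Ideal (Polynomial ℂ) :=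
    { carrier := {b | IsFormalBFunction f b}
      add_mem' := by
        intro a b ha hb
        rw [Set.mem_ofPred_eq, formal_iff] at ha hb ⊢
        have h := ha.add hb
        convert h using 2 with s
        rw [Polynomial.eval_add, add_smul]
      zero_mem' := by
        rw [Set.mem_ofPred_eq, formal_iff]
        have h := WW.zero (B := B1 f)
        convert h using 2 with s
        rw [Polynomial.eval_zero, zero_smul]
      smul_mem' := by
        intro c b hb
        rw [Set.mem_ofPred_eq, formal_iff] at hb ⊢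
        have h := WW.smulP hb c
        convert h using 2 with s
        rw [smul_eq_mul, Polynomial.eval_mul, smul_smul] }
  obtain ⟨b₀, hb₀⟩ := (IsPrincipalIdealRing.principal I)
  refine ⟨b₀, ?_, fun b hb => ?_⟩
  · have h : b₀ ∈ I := by
      rw [hb₀]
      exact Submodule.mem_span_singleton_self b₀
    exact h
  · have h : b ∈ I := hb
    rw [hb₀] at h
    exact Ideal.mem_span_singleton.1 h

/-! ### The volumes and the jets -/

theorem cyl_A1_level {n : ℕ} (f : MvPolynomial (Fin n) ℂ) (l : ℕ) :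
    Cyl (A1 f l : Set (Ac ℂ (Fin n))) l := by
  constructor
  · intro x y hxy hx
    obtain ⟨h1, h2, h3⟩ := hx
    have h4 := Pool.Agent.W375.MT.coeff_aeval_congr f l x y hxy
    refine ⟨fun i => ?_, fun j hj => ?_, ?_⟩
    · rw [← hxy i 0 (Nat.zero_le l)]
      exact h1 i
    · rw [← h4 j hj.le]
      exact h2 j hj
    · rw [← h4 l le_rfl]
      exact h3
  · have hpa : ∀ i, IsPA (fun z : Pt ℂ (Fin n × Fin (l + 1)) => ar z i) := fun i => isPA_arc i
    have h1 : Constr {z : Pt ℂ (Fin n × Fin (l + 1)) |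
        (∀ i, PowerSeries.coeff 0 (ar z i) = 0) ∧
        (∀ j < l, PowerSeries.coeff j (aeval (ar z) f) = 0) ∧
        PowerSeries.coeff l (aeval (ar z) f) ≠ 0} := by
      refine Constr.and (Constr.all fun i => Constr.eqz (hpa i 0)) (Constr.and ?_ ?_)
      · exact Constr.allLt _ fun j _ => Constr.eqz (IsPA.aeval (fun i z => ar z i) hpa f j)
      · exact Constr.not (Constr.eqz (IsPA.aeval (fun i z => ar z i) hpa f l))
    exact h1

theorem zetaO_eq (h0 : S_V0) {n : ℕ} (M : Meas ℂ (MK ℂ)) (hL : M.L = ((Lu ℂ : (MK ℂ)ˣ) : MK ℂ))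
    (hχ : ∀ (ι : Type) [Fintype ι] (S : Set (Pt ℂ ι)),
      M.χ ι S = algebraMap (K0 ℂ) (MK ℂ) (cls ι S)) (f : MvPolynomial (Fin n) ℂ) :
    zetaO f = PowerSeries.C (((Lu ℂ) ^ (-(n : ℤ)) : (MK ℂ)ˣ) : MK ℂ) *
      zs M (((Lu ℂ)⁻¹ : (MK ℂ)ˣ) : MK ℂ) f := by
  have hv : M.L * (((Lu ℂ)⁻¹ : (MK ℂ)ˣ) : MK ℂ) = 1 := by rw [hL]; exact (Lu ℂ).mul_inv
  unfold zetaO zs
  rw [Fintype.card_fin]
  congr 2
  funext l
  split_ifs with hl
  · rfl
  · rw [h0 M _ hv (A1 f l) l (cyl_A1_level f l), hχ, hL, Fintype.card_fin]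
    have h1 : JetS f {0} {c : AlgebraicClosure ℂ | c ≠ 0} l =
        {z : Pt ℂ (Fin n × Fin (l + 1)) | ar z ∈ A1 f l} := by
      ext z
      simp only [JetS, A1, Od, Set.mem_ofPred_eq, Set.mem_singleton_iff, funext_iff, Pi.zero_apply,
        Pool.Agent.TH192.MT.coeff_ar_zero, ne_eq]
    rw [h1]
    have h2 : (((Lu ℂ) ^ (-((n * l : ℕ) : ℤ)) : (MK ℂ)ˣ) : MK ℂ) =
        (Lu ℂ : MK ℂ) ^ n * (((Lu ℂ)⁻¹ : (MK ℂ)ˣ) : MK ℂ) ^ (n * (l + 1)) := by
      rw [← Units.val_pow_eq_pow_val, ← Units.val_pow_eq_pow_val, ← Units.val_mul]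
      congr 1
      rw [inv_pow, ← zpow_natCast, ← zpow_natCast, ← zpow_neg, ← zpow_add]
      congr 1
      push_cast
      ring
    rw [h2]
    ring

/-- all the facts -/
structure Fct' : Prop extends Fct where
  v0 : S_V0
  z : S_Z

/-- **The local motivic zeta function.** -/
theorem main (hB : Fct') {n : ℕ} (f : MvPolynomial (Fin n) ℂ) (hf : SIG (Fin n) f) :
    ∃ S : Finset (ℤ × ℤ), (∀ q ∈ S, q.1 < 0 ∧ 0 < q.2 ∧
      ∀ b : Polynomial ℂ, IsLocalBFunction f b → b.eval ((q.1 : ℂ) / q.2) = 0) ∧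
      zetaO f ∈ ratRing ℂ (S : Set (ℤ × ℤ)) := by
  obtain ⟨M, hL, hχ⟩ := exists_meas ℂ
  obtain ⟨b₀, hb₀, hdvd⟩ := exists_gen (f : MvPowerSeries (Fin n) ℂ)
  have h1 := siz_of_SIG hB.toFct M (Lu ℂ) hL hf inferInstance
  have h2 := Pool.Agent.J4H50.YM.siz_local' _ _ h1 b₀ hb₀
  obtain ⟨S, hS, hSz⟩ := hB.z b₀ _ h2
  refine ⟨S, fun q hq => ⟨(hS q hq).1, (hS q hq).2.1, fun b hb => ?_⟩, ?_⟩
  · obtain ⟨c, rfl⟩ := hdvd b (formal_of_local hb)
    rw [Polynomial.eval_mul, (hS q hq).2.2, zero_mul]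
  · rw [zetaO_eq hB.v0 M hL (fun ι _ S => hχ ι S) f]
    refine Subalgebra.mul_mem _ ?_ hSz
    exact Subalgebra.algebraMap_mem (ratRing ℂ (S : Set (ℤ × ℤ))) _

end Pool.Agent.J4H50.YJ
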