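import Pool.Agent.TH192.MT.Ser
import Pool.Agent.J4H50.YM.Defs
import Pool.Agent.J4H50.YP.Stm
import Pool.Agent.W574.MO.Point

set_option autoImplicit false

/-! # Project YJ: the motivic zeta functions of superisolated singularities, with spaces of jets

`K` is a field, `K̄` its algebraic closure, `M : Meas K R` an additive invariant of varieties over `K`,
and `M.L * v = 1`, so that `v = 𝕃⁻¹`. Arcs are the families of power series in `t` over `K̄`. -/

namespace Pool.Agent.J4H50.YJ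

open MvPolynomial
open Pool.Agent.W428.MOT
open Pool.Agent.TH192.MT (ar)
open Pool.Agent.J4H50.YP (deh)
open Pool.Agent.J4H50.YO (RedZeta)
open Pool.Agent.W574.MO (mf)

section Defs

variable {K : Type} [Field K]

/-- the arcs in the affine space with the coordinates `σ` -/
abbrev Ac (K : Type) [Field K] (σ : Type) : Type := σ → PowerSeries (AlgebraicClosure K)

/-- `f(t, x(t))` for a polynomial `f` in the variables `t = none` and `x_i = some i` -/
noncomputable def ev {σ : Type} (x : Ac K σ) (f : MvPolynomial (Option σ) K) :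
    PowerSeries (AlgebraicClosure K) :=
  aeval (fun o : Option σ => o.elim PowerSeries.X x) f

/-- `A` is determined by the coefficients of `t ^ j`, `j ≤ N`, and constructible -/
def Cyl {σ : Type} (A : Set (Ac K σ)) (N : ℕ) : Prop :=
  (∀ x y : Ac K σ, (∀ i, ∀ j ≤ N, PowerSeries.coeff j (x i) = PowerSeries.coeff j (y i)) →
    x ∈ A → y ∈ A) ∧ Constr {z : Pt K (σ × Fin (N + 1)) | ar z ∈ A}

/-- cylinders in the space of arcs -/
def IsCyl {σ : Type} (A : Set (Ac K σ)) : Prop := ∃ N, Cyl A N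

variable {R : Type} [CommRing R]

open Classical in
/-- The volume of a cylinder, normalized such that all arcs have the volume `1`. -/
noncomputable def vol (M : Meas K R) (v : R) {σ : Type} [Fintype σ] (A : Set (Ac K σ)) : R :=
  if h : IsCyl A then M.χ (σ × Fin (h.choose + 1)) {z | ar z ∈ A} *
    v ^ (Fintype.card σ * (h.choose + 1)) else 0

/-- `ord x = l` -/
def Od {F : Type} [Field F] (x : PowerSeries F) (l : ℕ) : Prop :=
  (∀ j < l, PowerSeries.coeff j x = 0) ∧ PowerSeries.coeff l x ≠ 0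

/-- `none`: `x(0) = 0`; `some i`: `ord x = i` -/
def oc {F : Type} [Field F] : Option ℕ → PowerSeries F → Prop
  | none, x => PowerSeries.coeff 0 x = 0
  | some i, x => Od x i

/-- the volume of the set of the `x` with `oc c x` (`i ≥ 1` if `c = some i`) -/
def mo (v : R) : Option ℕ → R
  | none => v
  | some i => (1 - v) * v ^ i

/-- the arcs `x` in the plane with the given orders of `x 0`, `x 1` and `h(x)` -/
def A2 (h : MvPolynomial (Fin 2) K) (c0 c1 : Option ℕ) (l : ℕ) : Set (Ac K (Fin 2)) :=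
  {x | oc c0 (x 0) ∧ oc c1 (x 1) ∧ Od (aeval x h) l}

/-- the arcs `x` at the origin with `ord F(x) = l` -/
def A1 {σ : Type} (F : MvPolynomial σ K) (l : ℕ) : Set (Ac K σ) :=
  {x | (∀ i, PowerSeries.coeff 0 (x i) = 0) ∧ Od (aeval x F) l}

/-- `F(t ^ m ξ) / t ^ (m d) = ∑_j t ^ (m (j - d)) F_j(ξ)`, if `F` only has terms of degree at least `d` -/
noncomputable def Qm {σ : Type} (F : MvPolynomial σ K) (d m : ℕ) (ξ : Ac K σ) :
    PowerSeries (AlgebraicClosure K) :=
  ∑ j ∈ Finset.range (F.totalDegree + 1),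
    PowerSeries.X ^ (m * (j - d)) * aeval ξ (homogeneousComponent j F)

/-- the geometric points with coordinates in `K` -/
noncomputable def gp {σ : Type} (P : σ → K) : Pt K σ := fun i => algebraMap K (AlgebraicClosure K) (P i)

/-- The generating function of the volumes, for `f` at the origin: `∑_{l ≥ 1} 𝕃 ^ n vol(A1 f l) T ^ l` -/
noncomputable def zs (M : Meas K R) (v : R) {σ : Type} [Fintype σ] (f : MvPolynomial σ K) :
    PowerSeries R :=
  PowerSeries.mk fun l => if l = 0 then 0 else M.L ^ Fintype.card σ * vol M v (A1 f l)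

end Defs

/-! ### Volumes -/

/-- (V0) the volume can be computed on every level -/
def S_V0 : Prop := ∀ {K : Type} [Field K] {R : Type} [CommRing R] (M : Meas K R) (v : R),
  M.L * v = 1 → ∀ {σ : Type} [Fintype σ] (A : Set (Ac K σ)) (N : ℕ), Cyl A N →
  vol M v A = M.χ (σ × Fin (N + 1)) {z | ar z ∈ A} * v ^ (Fintype.card σ * (N + 1))

/-- (V1) the cylinders are a Boolean algebra, and the volume is additive -/
def S_V1 : Prop := ∀ {K : Type} [Field K] {R : Type} [CommRing R] (M : Meas K R) (v : R),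
  M.L * v = 1 → ∀ {σ : Type} [Fintype σ],
  (∀ A : Set (Ac K σ), IsCyl A → IsCyl Aᶜ) ∧
  (∀ A B : Set (Ac K σ), IsCyl A → IsCyl B → IsCyl (A ∩ B) ∧ IsCyl (A ∪ B)) ∧
  (∀ A B : Set (Ac K σ), IsCyl A → IsCyl B → Disjoint A B → vol M v (A ∪ B) = vol M v A + vol M v B) ∧
  vol M v (Set.univ : Set (Ac K σ)) = 1 ∧ vol M v (∅ : Set (Ac K σ)) = 0

/-- (CC) conditions on the coefficients of `f(t, x(t))` define cylinders; constructible conditions on
`x(0)` too, and their volume is known -/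
def S_CC : Prop := ∀ {K : Type} [Field K] {σ : Type} [Fintype σ],
  (∀ (f : MvPolynomial (Option σ) K) (m : ℕ), IsCyl {x : Ac K σ | PowerSeries.coeff m (ev x f) = 0}) ∧
  (∀ S : Set (Pt K σ), Constr S →
    IsCyl {x : Ac K σ | (fun i => PowerSeries.coeff 0 (x i)) ∈ S} ∧
    ∀ {R : Type} [CommRing R] (M : Meas K R) (v : R), M.L * v = 1 →
      vol M v {x : Ac K σ | (fun i => PowerSeries.coeff 0 (x i)) ∈ S} =
        M.χ σ S * v ^ Fintype.card σ)

/-- (PR) products -/
def S_PR : Prop := ∀ {K : Type} [Field K] {R : Type} [CommRing R] (M : Meas K R) (v : R),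
  M.L * v = 1 → ∀ {σ τ : Type} [Fintype σ] [Fintype τ] (A : Set (Ac K σ)) (B : Set (Ac K τ)),
  IsCyl A → IsCyl B →
  IsCyl {x : Ac K (σ ⊕ τ) | (fun i => x (Sum.inl i)) ∈ A ∧ (fun i => x (Sum.inr i)) ∈ B} ∧
  vol M v {x : Ac K (σ ⊕ τ) | (fun i => x (Sum.inl i)) ∈ A ∧ (fun i => x (Sum.inr i)) ∈ B} =
    vol M v A * vol M v B

/-- (RE) other names of the coordinates -/
def S_RE : Prop := ∀ {K : Type} [Field K] {R : Type} [CommRing R] (M : Meas K R) (v : R),
  M.L * v = 1 → ∀ {σ τ : Type} [Fintype σ] [Fintype τ] (e : σ ≃ τ) (A : Set (Ac K σ)), IsCyl A →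
  IsCyl {x : Ac K τ | (fun i => x (e i)) ∈ A} ∧
  vol M v {x : Ac K τ | (fun i => x (e i)) ∈ A} = vol M v A

/-- (SC) multiplication of the coordinates by powers of `t` -/
def S_SC : Prop := ∀ {K : Type} [Field K] {R : Type} [CommRing R] (M : Meas K R) (v : R),
  M.L * v = 1 → ∀ {σ : Type} [Fintype σ] (m : σ → ℕ) (A : Set (Ac K σ)), IsCyl A →
  IsCyl {x : Ac K σ | ∃ y ∈ A, ∀ i, x i = PowerSeries.X ^ m i * y i} ∧
  vol M v {x : Ac K σ | ∃ y ∈ A, ∀ i, x i = PowerSeries.X ^ m i * y i} = v ^ (∑ i, m i) * vol M v A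

/-- (LIN) Elimination of a coefficient. The cylinder `A` does not depend on the coefficient of `t ^ j` in
`x i₀`, and the coefficient of `t ^ m` in `f(t, x(t))` is a polynomial of degree one in it, with the leading
coefficient `q(x(0))`, which does not vanish on `A` (if `j = 0`, then `q` does not depend on `x i₀`). -/
def S_LIN : Prop := ∀ {K : Type} [Field K] {R : Type} [CommRing R] (M : Meas K R) (v : R),
  M.L * v = 1 → ∀ {σ : Type} [Fintype σ] [DecidableEq σ] (A : Set (Ac K σ)), IsCyl A →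
  ∀ (i₀ : σ) (j m : ℕ) (f : MvPolynomial (Option σ) K) (q : MvPolynomial σ K), 1 ≤ j →
  (∀ x ∈ A, aeval (fun i => PowerSeries.coeff 0 (x i)) q ≠ 0) →
  (∀ x ∈ A, ∀ c : AlgebraicClosure K,
    Function.update x i₀ (x i₀ + PowerSeries.monomial j c) ∈ A ∧
    PowerSeries.coeff m (ev (Function.update x i₀ (x i₀ + PowerSeries.monomial j c)) f) =
      PowerSeries.coeff m (ev x f) + c * aeval (fun i => PowerSeries.coeff 0 (x i)) q) →
  vol M v (A ∩ {x | PowerSeries.coeff m (ev x f) = 0}) = v * vol M v A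

/-- (ISO) Regular isomorphisms between cylinders, which preserve the levels: the coordinates of `φ` and
`ψ` are quotients of polynomials in `t` and the coordinates of the arc, with a unit as denominator. -/
def S_ISO : Prop := ∀ {K : Type} [Field K] {R : Type} [CommRing R] (M : Meas K R) (v : R),
  M.L * v = 1 → ∀ {σ τ : Type} [Fintype σ] [Fintype τ], Fintype.card σ = Fintype.card τ →
  ∀ (A : Set (Ac K σ)) (B : Set (Ac K τ)), IsCyl A → IsCyl B →
  ∀ (φ : Ac K σ → Ac K τ) (ψ : Ac K τ → Ac K σ), (∀ x ∈ A, φ x ∈ B ∧ ψ (φ x) = x) →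
  (∀ y ∈ B, ψ y ∈ A ∧ φ (ψ y) = y) →
  (∀ i, ∃ P Q : MvPolynomial (Option σ) K, ∀ x ∈ A, PowerSeries.coeff 0 (ev x Q) ≠ 0 ∧
    φ x i * ev x Q = ev x P) →
  (∀ i, ∃ P Q : MvPolynomial (Option τ) K, ∀ y ∈ B, PowerSeries.coeff 0 (ev y Q) ≠ 0 ∧
    ψ y i * ev y Q = ev y P) → vol M v A = vol M v B

/-- the basic facts -/
structure Bas : Prop where
  v0 : S_V0
  v1 : S_V1
  cc : S_CC
  pr : S_PR
  re : S_RE
  sc : S_SC
  lin : S_LIN
  iso : S_ISO

/-! ### Plane curves -/

/-- (BL) the blowing up of the origin: `(x, w) ↦ (x, x w)`, for `ord x = i`. From (SC) and (ISO). -/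
def S_BL : Prop := ∀ {K : Type} [Field K] {R : Type} [CommRing R] (M : Meas K R) (v : R),
  M.L * v = 1 → ∀ (B : Set (Ac K (Fin 2))) (i : ℕ), IsCyl B → (∀ x ∈ B, Od (x 0) i) →
  IsCyl {x : Ac K (Fin 2) | ∃ y ∈ B, x 0 = y 0 ∧ x 1 = y 0 * y 1} ∧
  vol M v {x : Ac K (Fin 2) | ∃ y ∈ B, x 0 = y 0 ∧ x 1 = y 0 * y 1} = v ^ i * vol M v B

/-- (P1) units: all orders are independent -/
def S_P1 : Prop := ∀ {K : Type} [Field K] {R : Type} [CommRing R] (M : Meas K R) (v : R),
  M.L * v = 1 → ∀ (h : MvPolynomial (Fin 2) K), constantCoeff h ≠ 0 → ∀ (c0 c1 : Option ℕ) (l : ℕ),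
  (∀ i, c0 = some i → 1 ≤ i) → (∀ i, c1 = some i → 1 ≤ i) →
  vol M v (A2 h c0 c1 l) = if l = 0 then mo v c0 * mo v c1 else 0

/-- (P2) smooth curves transversal to `x 0 = 0`. From (LIN), for the coefficients of `x 1`. -/
def S_P2 : Prop := ∀ {K : Type} [Field K] {R : Type} [CommRing R] (M : Meas K R) (v : R),
  M.L * v = 1 → ∀ (h : MvPolynomial (Fin 2) K), constantCoeff h = 0 →
  constantCoeff (pderiv 1 h) ≠ 0 → ∀ (c0 : Option ℕ) (l : ℕ), (∀ i, c0 = some i → 1 ≤ i) →
  vol M v (A2 h c0 none l) = if l = 0 then 0 else mo v c0 * ((1 - v) * v ^ l)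

/-- (P3) exchange of the coordinates -/
def S_P3 : Prop := ∀ {K : Type} [Field K] {R : Type} [CommRing R] (M : Meas K R) (v : R),
  M.L * v = 1 → ∀ (h : MvPolynomial (Fin 2) K) (c0 c1 : Option ℕ) (l : ℕ),
  vol M v (A2 h c0 c1 l) = vol M v (A2 (rename (Equiv.swap (0 : Fin 2) 1) h) c1 c0 l)

/-- (P4) blowing up, the arcs with `ord (x 0) = i` and `ord (x 1) ≥ i` resp. `x 1 (0) = 0`: for `c1 = none` all
the arcs with `ord (x 1) ≥ i`, for `c1 = some j` the ones with `ord (x 1) = j`, `j ≥ i`. The set `S` contains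
all the `c` (geometric points) with `hc c (0) = 0`. -/
def S_P4 : Prop := ∀ {K : Type} [Field K] [IsAlgClosed K] [DecidableEq K] {R : Type} [CommRing R] (M : Meas K R) (v : R),
  M.L * v = 1 → ∀ (h : MvPolynomial (Fin 2) K) (m : ℕ) (hc : K → MvPolynomial (Fin 2) K),
  (∀ c, aeval ![X 0, X 0 * (X 1 + C c)] h = X 0 ^ m * hc c) →
  ∀ (S : Finset K), 0 ∈ S → (∀ c ∉ S, constantCoeff (hc c) ≠ 0) → ∀ (i l : ℕ), 1 ≤ i →
  vol M v {x ∈ A2 h (some i) none l | ∀ j < i, PowerSeries.coeff j (x 1) = 0} =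
    (if m * i ≤ l then v ^ i * ∑ c ∈ S, vol M v (A2 (hc c) (some i) none (l - m * i)) else 0) +
    (if l = m * i then v ^ i * (mo v (some i) * (1 - (S.card : R) * v)) else 0) ∧
  vol M v (A2 h (some i) (some i) l) =
    (if m * i ≤ l then v ^ i * ∑ c ∈ S.erase 0, vol M v (A2 (hc c) (some i) none (l - m * i)) else 0) +
    (if l = m * i then v ^ i * (mo v (some i) * (1 - (S.card : R) * v)) else 0) ∧
  ∀ j, i < j → vol M v (A2 h (some i) (some j) l) =
    if m * i ≤ l then v ^ i * vol M v (A2 (hc 0) (some i) (some (j - i)) (l - m * i)) else 0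

/-- the index set of the orders: no condition if there is no exceptional divisor (`a = 0`) -/
def Ix (a e : ℕ) : Finset (Option ℕ) :=
  if a = 0 then {none} else (Finset.Icc 1 e).map ⟨some, Option.some_injective ℕ⟩

/-- the order which enters the exponents -/
def ix (c : Option ℕ) : ℕ := c.getD 0

/-- (P5) the zeta function of the tree of blow-ups is the generating function of the volumes. Induction
over `RedZeta`, from (P1), (P2), (P3), (P4). The partition of the arcs for the blowing up: `ord (x 0) = i ≤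
ord (x 1)`, or `ord (x 1) = j < ord (x 0)` (for this chart use (P3) and (P4) for the polynomial with the
variables exchanged). Arcs with `ord (x 0), ord (x 1) > e` do not contribute to the coefficient of `T ^ e`,
as `m ≥ 1`. -/
def S_P5 : Prop := ∀ {K : Type} [Field K] {R : Type} [CommRing R] (M : Meas ℂ R) (u : Rˣ),
  M.L = (u : R) → ∀ (h : MvPolynomial (Fin 2) ℂ) (a₀ n₀ a₁ n₁ : ℕ) (Z : PowerSeries R),
  RedZeta (mf u) (PowerSeries.C (u : R)) h a₀ n₀ a₁ n₁ Z → 1 ≤ n₀ → 1 ≤ n₁ → (a₀ = 0 → n₀ = 1) →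
  (a₁ = 0 → n₁ = 1) → ∀ e : ℕ,
  ((u⁻¹ : Rˣ) : R) ^ 2 * PowerSeries.coeff e Z = ∑ c0 ∈ Ix a₀ e, ∑ c1 ∈ Ix a₁ e,
    if a₀ * ix c0 + a₁ * ix c1 ≤ e then
      ((u⁻¹ : Rˣ) : R) ^ ((n₀ - 1) * ix c0 + (n₁ - 1) * ix c1) *
        vol M ((u⁻¹ : Rˣ) : R) (A2 h c0 c1 (e - a₀ * ix c0 - a₁ * ix c1)) else 0

/-! ### Cones -/

/-- (C1) the arcs `x = t ^ i ξ`, `ξ(0) ≠ 0`. The arcs with `ord x > l` do not contribute, as `d ≥ 1`. -/
def S_C1 : Prop := ∀ {K : Type} [Field K] {R : Type} [CommRing R] (M : Meas K R) (v : R),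
  M.L * v = 1 → ∀ {σ : Type} [Fintype σ] (F : MvPolynomial σ K) (d : ℕ), 1 ≤ d →
  (∀ j < d, homogeneousComponent j F = 0) → ∀ l : ℕ, 1 ≤ l →
  vol M v (A1 F l) = ∑ i ∈ Finset.Icc 1 l, if d * i ≤ l then v ^ (Fintype.card σ * i) *
    vol M v {ξ : Ac K σ | (∃ r, PowerSeries.coeff 0 (ξ r) ≠ 0) ∧ Od (Qm F d i ξ) (l - d * i)} else 0

/-- the arcs `ξ` with `ξ(0) ≠ 0` on the line through `P` -/
def LP {K : Type} [Field K] {σ : Type} (P : σ → K) : Set (Ac K σ) :=
  {ξ | ∃ c : AlgebraicClosure K, c ≠ 0 ∧ ∀ r, PowerSeries.coeff 0 (ξ r) = c * gp P r}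

/-- the geometric points where `f ≠ 0` -/
def UU {K : Type} [Field K] {σ : Type} (f : MvPolynomial σ K) : Set (Pt K σ) := {x | aeval x f ≠ 0}

/-- the smooth points of the cone `f = 0` -/
def YY {K : Type} [Field K] {σ : Type} (f : MvPolynomial σ K) : Set (Pt K σ) :=
  {x | aeval x f = 0 ∧ ∃ l, aeval x (pderiv l f) ≠ 0}

/-- `P r`, `r : ι`, are representatives of the singular points of the projective hypersurface `f = 0` -/
structure SP {K : Type} [Field K] {σ ι : Type} (f : MvPolynomial σ K) (P : ι → σ → K) : Prop where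
  ne : ∀ r, P r ≠ 0
  sing : ∀ r l, eval (P r) (pderiv l f) = 0
  inj : ∀ r s, r ≠ s → ∀ c : K, P r ≠ c • P s
  all : ∀ x : Pt K σ, x ≠ 0 → (∀ l, aeval x (pderiv l f) = 0) →
    ∃ r, ∃ c : AlgebraicClosure K, x = fun i => c * gp (P r) i

/-- (C2) the points outside of the cone, the smooth points of the cone (by (LIN); `YY` is the disjoint
union of the sets where the first derivative which does not vanish is `∂_l f`), and the singular points.
The smooth points of the cone are not `0`, since `d ≥ 2`. -/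
def S_C2 : Prop := ∀ {K : Type} [Field K] [CharZero K] {R : Type} [CommRing R] (M : Meas K R) (v : R),
  M.L * v = 1 → ∀ {σ ι : Type} [Fintype σ] [Fintype ι] (F : MvPolynomial σ K) (d : ℕ), 2 ≤ d →
  (∀ j < d, homogeneousComponent j F = 0) → ∀ P : ι → σ → K, SP (homogeneousComponent d F) P →
  ∀ i : ℕ, 1 ≤ i →
  vol M v {ξ : Ac K σ | (∃ r, PowerSeries.coeff 0 (ξ r) ≠ 0) ∧ Od (Qm F d i ξ) 0} =
    M.χ σ (UU (homogeneousComponent d F)) * v ^ Fintype.card σ ∧
  ∀ j : ℕ, 1 ≤ j →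
  vol M v {ξ : Ac K σ | (∃ r, PowerSeries.coeff 0 (ξ r) ≠ 0) ∧ Od (Qm F d i ξ) j} =
    M.χ σ (YY (homogeneousComponent d F)) * v ^ Fintype.card σ * ((1 - v) * v ^ (j - 1)) +
    ∑ r, vol M v (LP (P r) ∩ {ξ | Od (Qm F d i ξ) j})

/-- the volumes at a superisolated point: `z l = vol(A1 g l)`, `n` the number of the variables -/
def wj {R : Type} [CommRing R] (v : R) (n : ℕ) (z : ℕ → R) (i j : ℕ) : R :=
  if j < i then (1 - v) * z j
  else if j = i then (1 - v) * (v ^ (n - 1) - ∑ l ∈ Finset.range (i + 1), z l) + (1 - 2 * v) * z i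
  else z i * ((1 - v) * v ^ (j - i))

/-- (C3) near a singular point `P` of the cone with `F_{d+1}(P) ≠ 0`. Coordinates: `ξ = w (P + (0, y))`, that
is `w = ξ_{i₀} / P_{i₀}`, `y_l = ξ_l / w - P_l` for `l ≠ i₀` ((ISO)). Then
`Qm F d i ξ = w ^ d (g(y) + t ^ i w F_{d+1}(P + (0, y)) + t ^ (2 i) w ^ 2 ⋯)`, `g = deh P i₀ F_d`. For `j > i` the
order of `g(y)` is `i`, and the coefficients of `w` are determined up to the order `j - i` ((LIN)): the
coefficient of `t ^ (i + k)` is `w_k F_{d+1}(P)` plus a polynomial in the `w_l`, `l < k`, and the `y`. For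
`k = 0`: `w_0` is not `0`; first the set of the `(w, y)` with `ord g(y) ≥ i` and `w` arbitrary (with
`w_0 = 0` allowed), then the difference. -/
def S_C3 : Prop := ∀ {K : Type} [Field K] [CharZero K] {R : Type} [CommRing R] (M : Meas K R) (v : R),
  M.L * v = 1 → ∀ {σ : Type} [Fintype σ] [DecidableEq σ] (F : MvPolynomial σ K) (d : ℕ), 2 ≤ d →
  (∀ j < d, homogeneousComponent j F = 0) → ∀ (P : σ → K) (i₀ : σ), P i₀ ≠ 0 →
  (∀ l, eval P (pderiv l (homogeneousComponent d F)) = 0) →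
  eval P (homogeneousComponent (d + 1) F) ≠ 0 → ∀ i j : ℕ, 1 ≤ i →
  vol M v (LP P ∩ {ξ | Od (Qm F d i ξ) j}) =
    wj v (Fintype.card σ) (fun l => vol M v (A1 (deh P i₀ (homogeneousComponent d F)) l)) i j

/-- (C4) the generating functions -/
def S_C4 : Prop := ∀ {R : Type} [CommRing R] (u : Rˣ) (n d : ℕ), 1 ≤ n → 1 ≤ d →
  ∀ {ι : Type} [Fintype ι] (A χU χY : R), χU = ((u : R) - 1) * A →
  χY = ((u : R) - 1) * ((∑ i ∈ Finset.range n, (u : R) ^ i) - A - (Fintype.card ι : R)) →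
  ∀ (z : ι → ℕ → R), (∀ r, z r 0 = 0) → ∀ (a : ℕ → R) (q : ℕ → ℕ → R),
  (∀ l, 1 ≤ l → a l = ∑ i ∈ Finset.Icc 1 l, if d * i ≤ l then
    ((u⁻¹ : Rˣ) : R) ^ (n * i) * q i (l - d * i) else 0) →
  (∀ i, 1 ≤ i → q i 0 = χU * ((u⁻¹ : Rˣ) : R) ^ n) →
  (∀ i j, 1 ≤ i → 1 ≤ j → q i j =
    χY * ((u⁻¹ : Rˣ) : R) ^ n * ((1 - ((u⁻¹ : Rˣ) : R)) * ((u⁻¹ : Rˣ) : R) ^ (j - 1)) +
      ∑ r, wj ((u⁻¹ : Rˣ) : R) n (z r) i j) →
  (PowerSeries.mk fun l => if l = 0 then 0 else (u : R) ^ n * a l) =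
    Pool.Agent.J4H50.YM.coneZ u n d A (fun r => PowerSeries.mk fun l =>
      if l = 0 then 0 else (u : R) ^ (n - 1) * z r l)

/-- (C5) the classes of the complement and of the smooth part of a cone. For `χ(UU)`: the parts where the
first coordinate which is not `0` is `x_i` are products of `{c ≠ 0}` and `{x_i = 1}`. The sum: `K̄ ^ σ` is the
disjoint union of `{0}`, `UU`, `YY` and of the lines through the `P r` without `0`. -/
def S_C5 : Prop := ∀ {K : Type} [Field K] [CharZero K] {R : Type} [CommRing R] (M : Meas K R),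
  ∀ {σ ι : Type} [Fintype σ] [Fintype ι] (f : MvPolynomial σ K) (d : ℕ), 2 ≤ d → f.IsHomogeneous d →
  ∀ P : ι → σ → K, SP f P → ∃ A : R, M.χ σ (UU f) = (M.L - 1) * A ∧
    M.χ σ (YY f) = (M.L - 1) * ((∑ i ∈ Finset.range (Fintype.card σ), M.L ^ i) - A -
      (Fintype.card ι : R))

/-- (G) the number of the singular points of the tangent cone of a superisolated singularity is finite.
Proof: by the Nullstellensatz the ideal `(∂_l H, H')` contains all monomials of large degree, so that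
`A = ℂ[x] / (∂_l H)` is generated as a module over `ℂ[H']` by finitely many monomials; so `A / (H' - 1)` has
finite dimension, and there are finitely many `x` with `∂_l H(x) = 0` for all `l` and `H'(x) = 1`. Every
singular point of the projective hypersurface has such a representative. -/
def S_G : Prop := ∀ {V : Type} [Finite V] (H H' : MvPolynomial V ℂ) (d e : ℕ), 1 ≤ d → 1 ≤ e →
  H.IsHomogeneous d → H'.IsHomogeneous e →
  (∀ x : V → ℂ, x ≠ 0 → (∀ l, eval x (pderiv l H) = 0) → eval x H' ≠ 0) →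
  ∃ (k : ℕ) (P : Fin k → V → ℂ), SP H P

/-- (EX) the tree of blow-ups of a reduced plane curve germ, with its zeta function. From
`Pool.Agent.Y230.RE.exists_KT`; compare `J4H97/YP` (`no_mult`) for the multiplicities in the leaves. -/
def S_EX : Prop := ∀ {R : Type} [CommRing R] (u : Rˣ) (F : MvPolynomial (Fin 2) ℂ), F ≠ 0 →
  constantCoeff F = 0 → (∀ h κ : MvPolynomial (Fin 2) ℂ, F = h ^ 2 * κ → constantCoeff h ≠ 0) →
  ∃ Z : PowerSeries R, RedZeta (mf u) (PowerSeries.C (u : R)) F 0 1 0 1 Z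

/-- (Z) from `DenRing` to `ratRing` -/
def S_Z : Prop := ∀ (b : Polynomial ℂ) (Z : PowerSeries (MK ℂ)),
  Z ∈ Pool.Agent.W574.MO.DenRing (Lu ℂ) (Pool.Agent.W574.MO.Kb b) →
  ∃ S : Finset (ℤ × ℤ), (∀ q ∈ S, q.1 < 0 ∧ 0 < q.2 ∧ b.eval ((q.1 : ℂ) / q.2) = 0) ∧
    Z ∈ ratRing ℂ (S : Set (ℤ × ℤ))

end Pool.Agent.J4H50.YJ
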