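import Pool.Agent.J4H50.YJ.Asm2
import Pool.Agent.J4H73.YJ.Bas
import Pool.Agent.J4H43.YJ.Bl
import Pool.Agent.J4H40.YJ.P1
import Pool.Agent.J4H46.YJ.P2
import Pool.Agent.J4H72.YJ.P4
import Pool.Agent.J4H2.YJ.P5
import Pool.Agent.J4H21.YJ.C1
import Pool.Agent.J4H55.YJ.C2
import Pool.Agent.J4H55.YJ.C3
import Pool.Agent.J4H36.YJ.C4
import Pool.Agent.J4H21.YJ.C5
import Pool.Agent.J4H60.YJ.G
import Pool.Agent.J4H97.YJ.Ex
import Pool.Agent.J4H94.YJ.Ch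
import Pool.Agent.J4H74.YJ.Z

set_option autoImplicit false

/-! # Project YJ: the theorem -/

namespace Pool.Agent.J4H50.YJ

open MvPolynomial
open Pool.Agent.W428.MOT
open Pool.Agent.TH192.MT (zetaO)
open Pool.Agent.J4H50.YP (SI)
open Pool.Agent.H628R4.TP (IsLocalBFunction)
open Pool.Agent.J4H73.YJ (bas)

theorem p5 : S_P5 :=
  @Pool.Agent.J4H2.YJ.t_P5 bas (Pool.Agent.J4H40.YJ.t_P1 bas) (Pool.Agent.J4H46.YJ.t_P2 bas)
    (Pool.Agent.J4H40.YJ.t_P3 bas)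
    (Pool.Agent.J4H72.YJ.t_P4 bas (Pool.Agent.J4H43.YJ.t_BL bas) (Pool.Agent.J4H40.YJ.t_P1 bas))

/-- all the facts -/
theorem fct : Fct' where
  v1 := bas.v1
  cc := bas.cc
  re := bas.re
  p5 := @p5
  c1 := Pool.Agent.J4H21.YJ.t_C1 bas
  c2 := Pool.Agent.J4H55.YJ.Two.t_C2 bas
  c3 := Pool.Agent.J4H55.YJ.t_C3 bas
  c4 := Pool.Agent.J4H36.YJ.t_C4
  c5 := Pool.Agent.J4H21.YJ.t_C5
  g := Pool.Agent.J4H60.YJ.t_G
  ex := Pool.Agent.J4H97.YJ.t_EX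
  ch := Pool.Agent.J4H94.YJ.t_CH
  v0 := bas.v0
  z := Pool.Agent.J4H74.YJ.t_Z

/-- **The local motivic zeta function of a superisolated singularity.** -/
theorem main_jets {n : ℕ} (f : MvPolynomial (Fin n) ℂ) (hf : SI (Fin n) f) :
    ∃ S : Finset (ℤ × ℤ), (∀ q ∈ S, q.1 < 0 ∧ 0 < q.2 ∧
      ∀ b : Polynomial ℂ, IsLocalBFunction f b → b.eval ((q.1 : ℂ) / q.2) = 0) ∧
      zetaO f ∈ ratRing ℂ (S : Set (ℤ × ℤ)) :=
  main_si fct f hf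

end Pool.Agent.J4H50.YJ
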